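import Mathlib

/-! Pointwise upper bound of the test function `ell` on `|s| ≤ 4` (vertex polynomials in Bernstein form). -/

namespace PoolAgent.H82R2

/-- The test function (truncated Hermite expansion with damping factors 1,1,1,3/4,3/5). -/
noncomputable def ell (c3 c4 c5 c6 c7 s : ℝ) : ℝ :=
  c3 * ((s^3 - 6*s) / 48) + c4 * ((s^4 - 12*s^2 + 12) / 384) + c5 * ((s^5 - 20*s^3 + 60*s) / 3840)
    + c6 * ((s^6 - 30*s^4 + 180*s^2 - 120) / 61440)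
    + c7 * ((s^7 - 42*s^5 + 420*s^3 - 840*s) / 1075200)

private lemma vert0 (s : ℝ) (h0 : 0 ≤ s) (h4 : s ≤ 4) : ell (3/2) (1) (69/8) (16) (53) s ≤ 1/5 + 107/1000*s^2 := by
  obtain ⟨p, hp⟩ : ∃ p : ℝ, p = s - 0 := ⟨_, rfl⟩
  obtain ⟨r, hr⟩ : ∃ r : ℝ, r = 4 - s := ⟨_, rfl⟩
  have hp0 : 0 ≤ p := by linarith
  have hr0 : 0 ≤ r := by linarith
  have key : 1/5 + 107/1000*s^2 - ell (3/2) (1) (69/8) (16) (53) s = (1/81920)*r^7 + (1137/10485760)*p*r^6 + (63371/131072000)*p^2*r^5 + (62427/52428800)*p^3*r^4 + (68843/39321600)*p^4*r^3 + (81883/52428800)*p^5*r^2 + (11273/15728640)*p^6*r + (291517/5505024000)*p^7 := by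
    rw [hp, hr]; unfold ell; ring
  have : 0 ≤ 1/5 + 107/1000*s^2 - ell (3/2) (1) (69/8) (16) (53) s := by rw [key]; positivity
  linarith

private lemma vert1 (s : ℝ) (h0 : 0 ≤ s) (h4 : s ≤ 4) : ell (3/2) (1) (69/8) (16) (-53) s ≤ 1/5 + 107/1000*s^2 := by
  obtain ⟨p, hp⟩ : ∃ p : ℝ, p = s - 0 := ⟨_, rfl⟩
  obtain ⟨r, hr⟩ : ∃ r : ℝ, r = 4 - s := ⟨_, rfl⟩
  have hp0 : 0 ≤ p := by linarith
  have hr0 : 0 ≤ r := by linarith
  have key : 1/5 + 107/1000*s^2 - ell (3/2) (1) (69/8) (16) (-53) s = (1/81920)*r^7 + (185/2097152)*p*r^6 + (47471/131072000)*p^2*r^5 + (55007/52428800)*p^3*r^4 + (78383/39321600)*p^4*r^3 + (20659/10485760)*p^5*r^2 + (57001/78643200)*p^6*r + (62899/1835008000)*p^7 := by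
    rw [hp, hr]; unfold ell; ring
  have : 0 ≤ 1/5 + 107/1000*s^2 - ell (3/2) (1) (69/8) (16) (-53) s := by rw [key]; positivity
  linarith

private lemma vert2 (s : ℝ) (h0 : 0 ≤ s) (h4 : s ≤ 4) : ell (3/2) (1) (69/8) (-14) (53) s ≤ 1/5 + 107/1000*s^2 := by
  obtain ⟨p, hp⟩ : ∃ p : ℝ, p = s - 0 := ⟨_, rfl⟩
  obtain ⟨r, hr⟩ : ∃ r : ℝ, r = 4 - s := ⟨_, rfl⟩
  have hp0 : 0 ≤ p := by linarith
  have hr0 : 0 ≤ r := by linarith
  have key : 1/5 + 107/1000*s^2 - ell (3/2) (1) (69/8) (-14) (53) s = (181/20971520)*r^7 + (1749/20971520)*p*r^6 + (259109/524288000)*p^2*r^5 + (156729/104857600)*p^3*r^4 + (709369/314572800)*p^4*r^3 + (173891/104857600)*p^5*r^2 + (34997/62914560)*p^6*r + (312659/11010048000)*p^7 := by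
    rw [hp, hr]; unfold ell; ring
  have : 0 ≤ 1/5 + 107/1000*s^2 - ell (3/2) (1) (69/8) (-14) (53) s := by rw [key]; positivity
  linarith

private lemma vert3 (s : ℝ) (h0 : 0 ≤ s) (h4 : s ≤ 4) : ell (3/2) (1) (69/8) (-14) (-53) s ≤ 1/5 + 107/1000*s^2 := by
  obtain ⟨p, hp⟩ : ∃ p : ℝ, p = s - 0 := ⟨_, rfl⟩
  obtain ⟨r, hr⟩ : ∃ r : ℝ, r = 4 - s := ⟨_, rfl⟩
  have hp0 : 0 ≤ p := by linarith
  have hr0 : 0 ≤ r := by linarith
  have key : 1/5 + 107/1000*s^2 - ell (3/2) (1) (69/8) (-14) (-53) s = (181/20971520)*r^7 + (265/4194304)*p*r^6 + (195509/524288000)*p^2*r^5 + (141889/104857600)*p^3*r^4 + (785689/314572800)*p^4*r^3 + (43343/20971520)*p^5*r^2 + (177529/314572800)*p^6*r + (35673/3670016000)*p^7 := by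
    rw [hp, hr]; unfold ell; ring
  have : 0 ≤ 1/5 + 107/1000*s^2 - ell (3/2) (1) (69/8) (-14) (-53) s := by rw [key]; positivity
  linarith

private lemma vert4 (s : ℝ) (h0 : 0 ≤ s) (h4 : s ≤ 4) : ell (3/2) (1) (-69/8) (16) (53) s ≤ 1/5 + 107/1000*s^2 := by
  obtain ⟨p, hp⟩ : ∃ p : ℝ, p = s - 0 := ⟨_, rfl⟩
  obtain ⟨r, hr⟩ : ∃ r : ℝ, r = 4 - s := ⟨_, rfl⟩
  have hp0 : 0 ≤ p := by linarith
  have hr0 : 0 ≤ r := by linarith
  have key : 1/5 + 107/1000*s^2 - ell (3/2) (1) (-69/8) (16) (53) s = (1/81920)*r^7 + (1827/10485760)*p*r^6 + (115121/131072000)*p^2*r^5 + (95777/52428800)*p^3*r^4 + (65393/39321600)*p^4*r^3 + (37953/52428800)*p^5*r^2 + (847/3145728)*p^6*r + (267367/5505024000)*p^7 := by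
    rw [hp, hr]; unfold ell; ring
  have : 0 ≤ 1/5 + 107/1000*s^2 - ell (3/2) (1) (-69/8) (16) (53) s := by rw [key]; positivity
  linarith

private lemma vert5 (s : ℝ) (h0 : 0 ≤ s) (h4 : s ≤ 4) : ell (3/2) (1) (-69/8) (16) (-53) s ≤ 1/5 + 107/1000*s^2 := by
  obtain ⟨p, hp⟩ : ∃ p : ℝ, p = s - 0 := ⟨_, rfl⟩
  obtain ⟨r, hr⟩ : ∃ r : ℝ, r = 4 - s := ⟨_, rfl⟩
  have hp0 : 0 ≤ p := by linarith
  have hr0 : 0 ≤ r := by linarith
  have key : 1/5 + 107/1000*s^2 - ell (3/2) (1) (-69/8) (16) (-53) s = (1/81920)*r^7 + (323/2097152)*p*r^6 + (99221/131072000)*p^2*r^5 + (88357/52428800)*p^3*r^4 + (74933/39321600)*p^4*r^3 + (11873/10485760)*p^5*r^2 + (21811/78643200)*p^6*r + (54849/1835008000)*p^7 := by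
    rw [hp, hr]; unfold ell; ring
  have : 0 ≤ 1/5 + 107/1000*s^2 - ell (3/2) (1) (-69/8) (16) (-53) s := by rw [key]; positivity
  linarith

private lemma vert6 (s : ℝ) (h0 : 0 ≤ s) (h4 : s ≤ 4) : ell (3/2) (1) (-69/8) (-14) (53) s ≤ 1/5 + 107/1000*s^2 := by
  obtain ⟨p, hp⟩ : ∃ p : ℝ, p = s - 0 := ⟨_, rfl⟩
  obtain ⟨r, hr⟩ : ∃ r : ℝ, r = 4 - s := ⟨_, rfl⟩
  have hp0 : 0 ≤ p := by linarith
  have hr0 : 0 ≤ r := by linarith
  have key : 1/5 + 107/1000*s^2 - ell (3/2) (1) (-69/8) (-14) (53) s = (181/20971520)*r^7 + (3129/20971520)*p*r^6 + (466109/524288000)*p^2*r^5 + (223429/104857600)*p^3*r^4 + (681769/314572800)*p^4*r^3 + (86031/104857600)*p^5*r^2 + (1369/12582912)*p^6*r + (264359/11010048000)*p^7 := by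
    rw [hp, hr]; unfold ell; ring
  have : 0 ≤ 1/5 + 107/1000*s^2 - ell (3/2) (1) (-69/8) (-14) (53) s := by rw [key]; positivity
  linarith

private lemma vert7 (s : ℝ) (h0 : 0 ≤ s) (h4 : s ≤ 4) : ell (3/2) (1) (-69/8) (-14) (-53) s ≤ 1/5 + 107/1000*s^2 := by
  obtain ⟨p, hp⟩ : ∃ p : ℝ, p = s - 0 := ⟨_, rfl⟩
  obtain ⟨r, hr⟩ : ∃ r : ℝ, r = 4 - s := ⟨_, rfl⟩
  have hp0 : 0 ≤ p := by linarith
  have hr0 : 0 ≤ r := by linarith
  have key : 1/5 + 107/1000*s^2 - ell (3/2) (1) (-69/8) (-14) (-53) s = (181/20971520)*r^7 + (541/4194304)*p*r^6 + (402509/524288000)*p^2*r^5 + (208589/104857600)*p^3*r^4 + (758089/314572800)*p^4*r^3 + (25771/20971520)*p^5*r^2 + (36769/314572800)*p^6*r + (19573/3670016000)*p^7 := by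
    rw [hp, hr]; unfold ell; ring
  have : 0 ≤ 1/5 + 107/1000*s^2 - ell (3/2) (1) (-69/8) (-14) (-53) s := by rw [key]; positivity
  linarith

private lemma vert8 (s : ℝ) (h0 : 0 ≤ s) (h4 : s ≤ 4) : ell (3/2) (-2) (69/8) (16) (53) s ≤ 1/5 + 107/1000*s^2 := by
  obtain ⟨p, hp⟩ : ∃ p : ℝ, p = s - 0 := ⟨_, rfl⟩
  obtain ⟨r, hr⟩ : ∃ r : ℝ, r = 4 - s := ⟨_, rfl⟩
  have hp0 : 0 ≤ p := by linarith
  have hr0 : 0 ≤ r := by linarith
  have key : 1/5 + 107/1000*s^2 - ell (3/2) (-2) (69/8) (16) (53) s = (47/2621440)*r^7 + (1557/10485760)*p*r^6 + (67121/131072000)*p^2*r^5 + (48927/52428800)*p^3*r^4 + (22759/19660800)*p^4*r^3 + (59383/52428800)*p^5*r^2 + (10463/15728640)*p^6*r + (491017/5505024000)*p^7 := by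
    rw [hp, hr]; unfold ell; ring
  have : 0 ≤ 1/5 + 107/1000*s^2 - ell (3/2) (-2) (69/8) (16) (53) s := by rw [key]; positivity
  linarith

private lemma vert9 (s : ℝ) (h0 : 0 ≤ s) (h4 : s ≤ 4) : ell (3/2) (-2) (69/8) (16) (-53) s ≤ 1/5 + 107/1000*s^2 := by
  obtain ⟨p, hp⟩ : ∃ p : ℝ, p = s - 0 := ⟨_, rfl⟩
  obtain ⟨r, hr⟩ : ∃ r : ℝ, r = 4 - s := ⟨_, rfl⟩
  have hp0 : 0 ≤ p := by linarith
  have hr0 : 0 ≤ r := by linarith
  have key : 1/5 + 107/1000*s^2 - ell (3/2) (-2) (69/8) (16) (-53) s = (47/2621440)*r^7 + (269/2097152)*p*r^6 + (51221/131072000)*p^2*r^5 + (41507/52428800)*p^3*r^4 + (27529/19660800)*p^4*r^3 + (16159/10485760)*p^5*r^2 + (52951/78643200)*p^6*r + (129399/1835008000)*p^7 := by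
    rw [hp, hr]; unfold ell; ring
  have : 0 ≤ 1/5 + 107/1000*s^2 - ell (3/2) (-2) (69/8) (16) (-53) s := by rw [key]; positivity
  linarith

private lemma vert10 (s : ℝ) (h0 : 0 ≤ s) (h4 : s ≤ 4) : ell (3/2) (-2) (69/8) (-14) (53) s ≤ 1/5 + 107/1000*s^2 := by
  obtain ⟨p, hp⟩ : ∃ p : ℝ, p = s - 0 := ⟨_, rfl⟩
  obtain ⟨r, hr⟩ : ∃ r : ℝ, r = 4 - s := ⟨_, rfl⟩
  have hp0 : 0 ≤ p := by linarith
  have hr0 : 0 ≤ r := by linarith
  have key : 1/5 + 107/1000*s^2 - ell (3/2) (-2) (69/8) (-14) (53) s = (301/20971520)*r^7 + (2589/20971520)*p*r^6 + (274109/524288000)*p^2*r^5 + (129729/104857600)*p^3*r^4 + (522769/314572800)*p^4*r^3 + (128891/104857600)*p^5*r^2 + (31757/62914560)*p^6*r + (711659/11010048000)*p^7 := by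
    rw [hp, hr]; unfold ell; ring
  have : 0 ≤ 1/5 + 107/1000*s^2 - ell (3/2) (-2) (69/8) (-14) (53) s := by rw [key]; positivity
  linarith

private lemma vert11 (s : ℝ) (h0 : 0 ≤ s) (h4 : s ≤ 4) : ell (3/2) (-2) (69/8) (-14) (-53) s ≤ 1/5 + 107/1000*s^2 := by
  obtain ⟨p, hp⟩ : ∃ p : ℝ, p = s - 0 := ⟨_, rfl⟩
  obtain ⟨r, hr⟩ : ∃ r : ℝ, r = 4 - s := ⟨_, rfl⟩
  have hp0 : 0 ≤ p := by linarith
  have hr0 : 0 ≤ r := by linarith
  have key : 1/5 + 107/1000*s^2 - ell (3/2) (-2) (69/8) (-14) (-53) s = (301/20971520)*r^7 + (433/4194304)*p*r^6 + (210509/524288000)*p^2*r^5 + (114889/104857600)*p^3*r^4 + (599089/314572800)*p^4*r^3 + (34343/20971520)*p^5*r^2 + (161329/314572800)*p^6*r + (168673/3670016000)*p^7 := by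
    rw [hp, hr]; unfold ell; ring
  have : 0 ≤ 1/5 + 107/1000*s^2 - ell (3/2) (-2) (69/8) (-14) (-53) s := by rw [key]; positivity
  linarith

private lemma vert12 (s : ℝ) (h0 : 0 ≤ s) (h4 : s ≤ 4) : ell (3/2) (-2) (-69/8) (16) (53) s ≤ 1/5 + 107/1000*s^2 := by
  obtain ⟨p, hp⟩ : ∃ p : ℝ, p = s - 0 := ⟨_, rfl⟩
  obtain ⟨r, hr⟩ : ∃ r : ℝ, r = 4 - s := ⟨_, rfl⟩
  have hp0 : 0 ≤ p := by linarith
  have hr0 : 0 ≤ r := by linarith
  have key : 1/5 + 107/1000*s^2 - ell (3/2) (-2) (-69/8) (16) (53) s = (47/2621440)*r^7 + (2247/10485760)*p*r^6 + (118871/131072000)*p^2*r^5 + (82277/52428800)*p^3*r^4 + (10517/9830400)*p^4*r^3 + (15453/52428800)*p^5*r^2 + (685/3145728)*p^6*r + (466867/5505024000)*p^7 := by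
    rw [hp, hr]; unfold ell; ring
  have : 0 ≤ 1/5 + 107/1000*s^2 - ell (3/2) (-2) (-69/8) (16) (53) s := by rw [key]; positivity
  linarith

private lemma vert13 (s : ℝ) (h0 : 0 ≤ s) (h4 : s ≤ 4) : ell (3/2) (-2) (-69/8) (16) (-53) s ≤ 1/5 + 107/1000*s^2 := by
  obtain ⟨p, hp⟩ : ∃ p : ℝ, p = s - 0 := ⟨_, rfl⟩
  obtain ⟨r, hr⟩ : ∃ r : ℝ, r = 4 - s := ⟨_, rfl⟩
  have hp0 : 0 ≤ p := by linarith
  have hr0 : 0 ≤ r := by linarith
  have key : 1/5 + 107/1000*s^2 - ell (3/2) (-2) (-69/8) (16) (-53) s = (47/2621440)*r^7 + (407/2097152)*p*r^6 + (102971/131072000)*p^2*r^5 + (74857/52428800)*p^3*r^4 + (6451/4915200)*p^4*r^3 + (7373/10485760)*p^5*r^2 + (17761/78643200)*p^6*r + (121349/1835008000)*p^7 := by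
    rw [hp, hr]; unfold ell; ring
  have : 0 ≤ 1/5 + 107/1000*s^2 - ell (3/2) (-2) (-69/8) (16) (-53) s := by rw [key]; positivity
  linarith

private lemma vert14 (s : ℝ) (h0 : 0 ≤ s) (h4 : s ≤ 4) : ell (3/2) (-2) (-69/8) (-14) (53) s ≤ 1/5 + 107/1000*s^2 := by
  obtain ⟨p, hp⟩ : ∃ p : ℝ, p = s - 0 := ⟨_, rfl⟩
  obtain ⟨r, hr⟩ : ∃ r : ℝ, r = 4 - s := ⟨_, rfl⟩
  have hp0 : 0 ≤ p := by linarith
  have hr0 : 0 ≤ r := by linarith
  have key : 1/5 + 107/1000*s^2 - ell (3/2) (-2) (-69/8) (-14) (53) s = (301/20971520)*r^7 + (3969/20971520)*p*r^6 + (481109/524288000)*p^2*r^5 + (196429/104857600)*p^3*r^4 + (495169/314572800)*p^4*r^3 + (41031/104857600)*p^5*r^2 + (721/12582912)*p^6*r + (663359/11010048000)*p^7 := by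
    rw [hp, hr]; unfold ell; ring
  have : 0 ≤ 1/5 + 107/1000*s^2 - ell (3/2) (-2) (-69/8) (-14) (53) s := by rw [key]; positivity
  linarith

private lemma vert15 (s : ℝ) (h0 : 0 ≤ s) (h4 : s ≤ 4) : ell (3/2) (-2) (-69/8) (-14) (-53) s ≤ 1/5 + 107/1000*s^2 := by
  obtain ⟨p, hp⟩ : ∃ p : ℝ, p = s - 0 := ⟨_, rfl⟩
  obtain ⟨r, hr⟩ : ∃ r : ℝ, r = 4 - s := ⟨_, rfl⟩
  have hp0 : 0 ≤ p := by linarith
  have hr0 : 0 ≤ r := by linarith
  have key : 1/5 + 107/1000*s^2 - ell (3/2) (-2) (-69/8) (-14) (-53) s = (301/20971520)*r^7 + (709/4194304)*p*r^6 + (417509/524288000)*p^2*r^5 + (181589/104857600)*p^3*r^4 + (571489/314572800)*p^4*r^3 + (16771/20971520)*p^5*r^2 + (20569/314572800)*p^6*r + (152573/3670016000)*p^7 := by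
    rw [hp, hr]; unfold ell; ring
  have : 0 ≤ 1/5 + 107/1000*s^2 - ell (3/2) (-2) (-69/8) (-14) (-53) s := by rw [key]; positivity
  linarith

private lemma vert16 (s : ℝ) (h0 : 0 ≤ s) (h4 : s ≤ 4) : ell (-3/2) (1) (69/8) (16) (53) s ≤ 1/5 + 107/1000*s^2 := by
  obtain ⟨p, hp⟩ : ∃ p : ℝ, p = s - 0 := ⟨_, rfl⟩
  obtain ⟨r, hr⟩ : ∃ r : ℝ, r = 4 - s := ⟨_, rfl⟩
  have hp0 : 0 ≤ p := by linarith
  have hr0 : 0 ≤ r := by linarith
  have key : 1/5 + 107/1000*s^2 - ell (-3/2) (1) (69/8) (16) (53) s = (1/83886080)*r^12 + (817/10737418240)*p*r^11 + (36867/268435456000)*p^2*r^10 + (1219/53687091200)*p^3*r^9 + (121979/161061273600)*p^4*r^8 + (486683/80530636800)*p^5*r^7 + (1468793/80530636800)*p^6*r^6 + (87154187/2818572288000)*p^7*r^5 + (18465917/563714457600)*p^8*r^4 + (8315551/375809638400)*p^9*r^3 + (3460309/375809638400)*p^10*r^2 + (797009/375809638400)*p^11*r + (1131517/5637144576000)*p^12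 := by
    rw [hp, hr]; unfold ell; ring
  have : 0 ≤ 1/5 + 107/1000*s^2 - ell (-3/2) (1) (69/8) (16) (53) s := by rw [key]; positivity
  linarith

private lemma vert17 (s : ℝ) (h0 : 0 ≤ s) (h4 : s ≤ 4) : ell (-3/2) (1) (69/8) (16) (-53) s ≤ 1/5 + 107/1000*s^2 := by
  rcases le_total s 1 with hb | hb
  · obtain ⟨p, hp⟩ : ∃ p : ℝ, p = s - 0 := ⟨_, rfl⟩
    obtain ⟨r, hr⟩ : ∃ r : ℝ, r = 1 - s := ⟨_, rfl⟩
    have hp0 : 0 ≤ p := by linarith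
    have hr0 : 0 ≤ r := by linarith
    have key : 1/5 + 107/1000*s^2 - ell (-3/2) (1) (69/8) (16) (-53) s = (1/5)*r^7 + (2653/2560)*p*r^6 + (67499/32000)*p^2*r^5 + (26863/12800)*p^3*r^4 + (9917/9600)*p^4*r^3 + (12863/51200)*p^5*r^2 + (1061/15360)*p^6*r + (2829/112000)*p^7 := by
      rw [hp, hr]; unfold ell; ring
    have : 0 ≤ 1/5 + 107/1000*s^2 - ell (-3/2) (1) (69/8) (16) (-53) s := by rw [key]; positivity
    linarith
  ·
    rcases le_total s 2 with hb | hb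
    · obtain ⟨p, hp⟩ : ∃ p : ℝ, p = s - 1 := ⟨_, rfl⟩
      obtain ⟨r, hr⟩ : ∃ r : ℝ, r = 2 - s := ⟨_, rfl⟩
      have hp0 : 0 ≤ p := by linarith
      have hr0 : 0 ≤ r := by linarith
      have key : 1/5 + 107/1000*s^2 - ell (-3/2) (1) (69/8) (16) (-53) s = (2829/112000)*r^7 + (109267/384000)*p*r^6 + (395283/256000)*p^2*r^5 + (338477/76800)*p^3*r^4 + (89301/12800)*p^4*r^3 + (12369/2000)*p^5*r^2 + (552631/192000)*p^6*r + (368261/672000)*p^7 := by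
        rw [hp, hr]; unfold ell; ring
      have : 0 ≤ 1/5 + 107/1000*s^2 - ell (-3/2) (1) (69/8) (16) (-53) s := by rw [key]; positivity
      linarith
    ·
      obtain ⟨p, hp⟩ : ∃ p : ℝ, p = s - 2 := ⟨_, rfl⟩
      obtain ⟨r, hr⟩ : ∃ r : ℝ, r = 4 - s := ⟨_, rfl⟩
      have hp0 : 0 ≤ p := by linarith
      have hr0 : 0 ≤ r := by linarith
      have key : 1/5 + 107/1000*s^2 - ell (-3/2) (1) (69/8) (16) (-53) s = (368261/86016000)*r^7 + (69019/1536000)*p*r^6 + (790179/4096000)*p^2*r^5 + (179157/409600)*p^3*r^4 + (1386821/2457600)*p^4*r^3 + (422649/1024000)*p^5*r^2 + (1934707/12288000)*p^6*r + (342899/14336000)*p^7 := by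
        rw [hp, hr]; unfold ell; ring
      have : 0 ≤ 1/5 + 107/1000*s^2 - ell (-3/2) (1) (69/8) (16) (-53) s := by rw [key]; positivity
      linarith

private lemma vert18 (s : ℝ) (h0 : 0 ≤ s) (h4 : s ≤ 4) : ell (-3/2) (1) (69/8) (-14) (53) s ≤ 1/5 + 107/1000*s^2 := by
  rcases le_total s 2 with hb | hb
  · obtain ⟨p, hp⟩ : ∃ p : ℝ, p = s - 0 := ⟨_, rfl⟩
    obtain ⟨r, hr⟩ : ∃ r : ℝ, r = 2 - s := ⟨_, rfl⟩
    have hp0 : 0 ≤ p := by linarith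
    have hr0 : 0 ≤ r := by linarith
    have key : 1/5 + 107/1000*s^2 - ell (-3/2) (1) (69/8) (-14) (53) s = (181/163840)*r^7 + (137/40960)*p*r^6 + (10121/4096000)*p^2*r^5 + (221/51200)*p^3*r^4 + (48181/2457600)*p^4*r^3 + (6269/204800)*p^5*r^2 + (48577/2457600)*p^6*r + (16579/3584000)*p^7 := by
      rw [hp, hr]; unfold ell; ring
    have : 0 ≤ 1/5 + 107/1000*s^2 - ell (-3/2) (1) (69/8) (-14) (53) s := by rw [key]; positivity
    linarith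
  ·
    obtain ⟨p, hp⟩ : ∃ p : ℝ, p = s - 2 := ⟨_, rfl⟩
    obtain ⟨r, hr⟩ : ∃ r : ℝ, r = 4 - s := ⟨_, rfl⟩
    have hp0 : 0 ≤ p := by linarith
    have hr0 : 0 ≤ r := by linarith
    have key : 1/5 + 107/1000*s^2 - ell (-3/2) (1) (69/8) (-14) (53) s = (16579/3584000)*r^7 + (552907/12288000)*p*r^6 + (46589/256000)*p^2*r^5 + (972647/2457600)*p^3*r^4 + (51179/102400)*p^4*r^3 + (1500991/4096000)*p^5*r^2 + (27653/192000)*p^6*r + (1992659/86016000)*p^7 := by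
      rw [hp, hr]; unfold ell; ring
    have : 0 ≤ 1/5 + 107/1000*s^2 - ell (-3/2) (1) (69/8) (-14) (53) s := by rw [key]; positivity
    linarith

private lemma vert19 (s : ℝ) (h0 : 0 ≤ s) (h4 : s ≤ 4) : ell (-3/2) (1) (69/8) (-14) (-53) s ≤ 1/5 + 107/1000*s^2 := by
  rcases le_total s (1/2) with hb | hb
  · obtain ⟨p, hp⟩ : ∃ p : ℝ, p = s - 0 := ⟨_, rfl⟩
    obtain ⟨r, hr⟩ : ∃ r : ℝ, r = (1/2) - s := ⟨_, rfl⟩
    have hp0 : 0 ≤ p := by linarith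
    have hr0 : 0 ≤ r := by linarith
    have key : 1/5 + 107/1000*s^2 - ell (-3/2) (1) (69/8) (-14) (-53) s = (181/10)*r^7 + (4137/40)*p*r^6 + (492373/2000)*p^2*r^5 + (125843/400)*p^3*r^4 + (2222299/9600)*p^4*r^3 + (1246671/12800)*p^5*r^2 + (1664399/76800)*p^6*r + (10855319/5376000)*p^7 := by
      rw [hp, hr]; unfold ell; ring
    have : 0 ≤ 1/5 + 107/1000*s^2 - ell (-3/2) (1) (69/8) (-14) (-53) s := by rw [key]; positivity
    linarith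
  ·
    rcases le_total s 1 with hb | hb
    · obtain ⟨p, hp⟩ : ∃ p : ℝ, p = s - (1/2) := ⟨_, rfl⟩
      obtain ⟨r, hr⟩ : ∃ r : ℝ, r = 1 - s := ⟨_, rfl⟩
      have hp0 : 0 ≤ p := by linarith
      have hr0 : 0 ≤ r := by linarith
      have key : 1/5 + 107/1000*s^2 - ell (-3/2) (1) (69/8) (-14) (-53) s = (10855319/5376000)*r^7 + (633331/96000)*p*r^6 + (111171/16000)*p^2*r^5 + (48267/6400)*p^3*r^4 + (209309/9600)*p^4*r^3 + (132291/4000)*p^5*r^2 + (129671/6000)*p^6*r + (72389/14000)*p^7 := by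
        rw [hp, hr]; unfold ell; ring
      have : 0 ≤ 1/5 + 107/1000*s^2 - ell (-3/2) (1) (69/8) (-14) (-53) s := by rw [key]; positivity
      linarith
    ·
      rcases le_total s 2 with hb | hb
      · obtain ⟨p, hp⟩ : ∃ p : ℝ, p = s - 1 := ⟨_, rfl⟩
        obtain ⟨r, hr⟩ : ∃ r : ℝ, r = 2 - s := ⟨_, rfl⟩
        have hp0 : 0 ≤ p := by linarith
        have hr0 : 0 ≤ r := by linarith
        have key : 1/5 + 107/1000*s^2 - ell (-3/2) (1) (69/8) (-14) (-53) s = (72389/1792000)*r^7 + (392159/768000)*p*r^6 + (663033/256000)*p^2*r^5 + (258301/38400)*p^3*r^4 + (15647/1600)*p^4*r^3 + (516183/64000)*p^5*r^2 + (677881/192000)*p^6*r + (107159/168000)*p^7 := by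
          rw [hp, hr]; unfold ell; ring
        have : 0 ≤ 1/5 + 107/1000*s^2 - ell (-3/2) (1) (69/8) (-14) (-53) s := by rw [key]; positivity
        linarith
      ·
        obtain ⟨p, hp⟩ : ∃ p : ℝ, p = s - 2 := ⟨_, rfl⟩
        obtain ⟨r, hr⟩ : ∃ r : ℝ, r = 4 - s := ⟨_, rfl⟩
        have hp0 : 0 ≤ p := by linarith
        have hr0 : 0 ≤ r := by linarith
        have key : 1/5 + 107/1000*s^2 - ell (-3/2) (1) (69/8) (-14) (-53) s = (107159/21504000)*r^7 + (608027/12288000)*p*r^6 + (205701/1024000)*p^2*r^5 + (353189/819200)*p^3*r^4 + (324299/614400)*p^4*r^3 + (1509471/4096000)*p^5*r^2 + (418333/3072000)*p^6*r + (595673/28672000)*p^7 := by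
          rw [hp, hr]; unfold ell; ring
        have : 0 ≤ 1/5 + 107/1000*s^2 - ell (-3/2) (1) (69/8) (-14) (-53) s := by rw [key]; positivity
        linarith

private lemma vert20 (s : ℝ) (h0 : 0 ≤ s) (h4 : s ≤ 4) : ell (-3/2) (1) (-69/8) (16) (53) s ≤ 1/5 + 107/1000*s^2 := by
  obtain ⟨p, hp⟩ : ∃ p : ℝ, p = s - 0 := ⟨_, rfl⟩
  obtain ⟨r, hr⟩ : ∃ r : ℝ, r = 4 - s := ⟨_, rfl⟩
  have hp0 : 0 ≤ p := by linarith
  have hr0 : 0 ≤ r := by linarith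
  have key : 1/5 + 107/1000*s^2 - ell (-3/2) (1) (-69/8) (16) (53) s = (1/81920)*r^7 + (867/10485760)*p*r^6 + (43121/131072000)*p^2*r^5 + (36577/52428800)*p^3*r^4 + (31793/39321600)*p^4*r^3 + (42753/52428800)*p^5*r^2 + (2191/3145728)*p^6*r + (1107367/5505024000)*p^7 := by
    rw [hp, hr]; unfold ell; ring
  have : 0 ≤ 1/5 + 107/1000*s^2 - ell (-3/2) (1) (-69/8) (16) (53) s := by rw [key]; positivity
  linarith

private lemma vert21 (s : ℝ) (h0 : 0 ≤ s) (h4 : s ≤ 4) : ell (-3/2) (1) (-69/8) (16) (-53) s ≤ 1/5 + 107/1000*s^2 := by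
  obtain ⟨p, hp⟩ : ∃ p : ℝ, p = s - 0 := ⟨_, rfl⟩
  obtain ⟨r, hr⟩ : ∃ r : ℝ, r = 4 - s := ⟨_, rfl⟩
  have hp0 : 0 ≤ p := by linarith
  have hr0 : 0 ≤ r := by linarith
  have key : 1/5 + 107/1000*s^2 - ell (-3/2) (1) (-69/8) (16) (-53) s = (1/81920)*r^7 + (131/2097152)*p*r^6 + (27221/131072000)*p^2*r^5 + (29157/52428800)*p^3*r^4 + (41333/39321600)*p^4*r^3 + (12833/10485760)*p^5*r^2 + (55411/78643200)*p^6*r + (334849/1835008000)*p^7 := by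
    rw [hp, hr]; unfold ell; ring
  have : 0 ≤ 1/5 + 107/1000*s^2 - ell (-3/2) (1) (-69/8) (16) (-53) s := by rw [key]; positivity
  linarith

private lemma vert22 (s : ℝ) (h0 : 0 ≤ s) (h4 : s ≤ 4) : ell (-3/2) (1) (-69/8) (-14) (53) s ≤ 1/5 + 107/1000*s^2 := by
  obtain ⟨p, hp⟩ : ∃ p : ℝ, p = s - 0 := ⟨_, rfl⟩
  obtain ⟨r, hr⟩ : ∃ r : ℝ, r = 4 - s := ⟨_, rfl⟩
  have hp0 : 0 ≤ p := by linarith
  have hr0 : 0 ≤ r := by linarith
  have key : 1/5 + 107/1000*s^2 - ell (-3/2) (1) (-69/8) (-14) (53) s = (181/20971520)*r^7 + (1209/20971520)*p*r^6 + (178109/524288000)*p^2*r^5 + (105029/104857600)*p^3*r^4 + (412969/314572800)*p^4*r^3 + (95631/104857600)*p^5*r^2 + (6745/12582912)*p^6*r + (1944359/11010048000)*p^7 := by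
    rw [hp, hr]; unfold ell; ring
  have : 0 ≤ 1/5 + 107/1000*s^2 - ell (-3/2) (1) (-69/8) (-14) (53) s := by rw [key]; positivity
  linarith

private lemma vert23 (s : ℝ) (h0 : 0 ≤ s) (h4 : s ≤ 4) : ell (-3/2) (1) (-69/8) (-14) (-53) s ≤ 1/5 + 107/1000*s^2 := by
  obtain ⟨p, hp⟩ : ∃ p : ℝ, p = s - 0 := ⟨_, rfl⟩
  obtain ⟨r, hr⟩ : ∃ r : ℝ, r = 4 - s := ⟨_, rfl⟩
  have hp0 : 0 ≤ p := by linarith
  have hr0 : 0 ≤ r := by linarith
  have key : 1/5 + 107/1000*s^2 - ell (-3/2) (1) (-69/8) (-14) (-53) s = (181/20971520)*r^7 + (157/4194304)*p*r^6 + (114509/524288000)*p^2*r^5 + (90189/104857600)*p^3*r^4 + (489289/314572800)*p^4*r^3 + (27691/20971520)*p^5*r^2 + (171169/314572800)*p^6*r + (579573/3670016000)*p^7 := by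
    rw [hp, hr]; unfold ell; ring
  have : 0 ≤ 1/5 + 107/1000*s^2 - ell (-3/2) (1) (-69/8) (-14) (-53) s := by rw [key]; positivity
  linarith

private lemma vert24 (s : ℝ) (h0 : 0 ≤ s) (h4 : s ≤ 4) : ell (-3/2) (-2) (69/8) (16) (53) s ≤ 1/5 + 107/1000*s^2 := by
  rcases le_total s 2 with hb | hb
  · obtain ⟨p, hp⟩ : ∃ p : ℝ, p = s - 0 := ⟨_, rfl⟩
    obtain ⟨r, hr⟩ : ∃ r : ℝ, r = 2 - s := ⟨_, rfl⟩
    have hp0 : 0 ≤ p := by linarith
    have hr0 : 0 ≤ r := by linarith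
    have key : 1/5 + 107/1000*s^2 - ell (-3/2) (-2) (69/8) (16) (53) s = (47/20480)*r^7 + (1913/163840)*p*r^6 + (44623/2048000)*p^2*r^5 + (14411/819200)*p^3*r^4 + (4489/614400)*p^4*r^3 + (5951/819200)*p^5*r^2 + (9701/1228800)*p^6*r + (77507/28672000)*p^7 := by
      rw [hp, hr]; unfold ell; ring
    have : 0 ≤ 1/5 + 107/1000*s^2 - ell (-3/2) (-2) (69/8) (16) (53) s := by rw [key]; positivity
    linarith
  ·
    obtain ⟨p, hp⟩ : ∃ p : ℝ, p = s - 2 := ⟨_, rfl⟩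
    obtain ⟨r, hr⟩ : ∃ r : ℝ, r = 4 - s := ⟨_, rfl⟩
    have hp0 : 0 ≤ p := by linarith
    have hr0 : 0 ≤ r := by linarith
    have key : 1/5 + 107/1000*s^2 - ell (-3/2) (-2) (69/8) (16) (53) s = (77507/28672000)*r^7 + (11501/384000)*p*r^6 + (571799/4096000)*p^2*r^5 + (428311/1228800)*p^3*r^4 + (409907/819200)*p^4*r^3 + (421279/1024000)*p^5*r^2 + (2190167/12288000)*p^6*r + (1331017/43008000)*p^7 := by
      rw [hp, hr]; unfold ell; ring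
    have : 0 ≤ 1/5 + 107/1000*s^2 - ell (-3/2) (-2) (69/8) (16) (53) s := by rw [key]; positivity
    linarith

private lemma vert25 (s : ℝ) (h0 : 0 ≤ s) (h4 : s ≤ 4) : ell (-3/2) (-2) (69/8) (16) (-53) s ≤ 1/5 + 107/1000*s^2 := by
  rcases le_total s 2 with hb | hb
  · obtain ⟨p, hp⟩ : ∃ p : ℝ, p = s - 0 := ⟨_, rfl⟩
    obtain ⟨r, hr⟩ : ∃ r : ℝ, r = 2 - s := ⟨_, rfl⟩
    have hp0 : 0 ≤ p := by linarith
    have hr0 : 0 ≤ r := by linarith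
    have key : 1/5 + 107/1000*s^2 - ell (-3/2) (-2) (69/8) (16) (-53) s = (47/655360)*r^12 + (3581/5242880)*p*r^11 + (364071/131072000)*p^2*r^10 + (161927/26214400)*p^3*r^9 + (617287/78643200)*p^4*r^8 + (40157/7864320)*p^5*r^7 + (32131/39321600)*p^6*r^6 + (183301/1376256000)*p^7*r^5 + (710191/275251200)*p^8*r^4 + (678063/183500800)*p^9*r^3 + (86033/36700160)*p^10*r^2 + (135993/183500800)*p^11*r + (263261/2752512000)*p^12 := by
      rw [hp, hr]; unfold ell; ring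
    have : 0 ≤ 1/5 + 107/1000*s^2 - ell (-3/2) (-2) (69/8) (16) (-53) s := by rw [key]; positivity
    linarith
  ·
    obtain ⟨p, hp⟩ : ∃ p : ℝ, p = s - 2 := ⟨_, rfl⟩
    obtain ⟨r, hr⟩ : ∃ r : ℝ, r = 4 - s := ⟨_, rfl⟩
    have hp0 : 0 ≤ p := by linarith
    have hr0 : 0 ≤ r := by linarith
    have key : 1/5 + 107/1000*s^2 - ell (-3/2) (-2) (69/8) (16) (-53) s = (263261/86016000)*r^7 + (26447/768000)*p*r^6 + (649179/4096000)*p^2*r^5 + (157257/409600)*p^3*r^4 + (1298621/2457600)*p^4*r^3 + (423399/1024000)*p^5*r^2 + (2093707/12288000)*p^6*r + (409399/14336000)*p^7 := by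
      rw [hp, hr]; unfold ell; ring
    have : 0 ≤ 1/5 + 107/1000*s^2 - ell (-3/2) (-2) (69/8) (16) (-53) s := by rw [key]; positivity
    linarith

private lemma vert26 (s : ℝ) (h0 : 0 ≤ s) (h4 : s ≤ 4) : ell (-3/2) (-2) (69/8) (-14) (53) s ≤ 1/5 + 107/1000*s^2 := by
  obtain ⟨p, hp⟩ : ∃ p : ℝ, p = s - 0 := ⟨_, rfl⟩
  obtain ⟨r, hr⟩ : ∃ r : ℝ, r = 4 - s := ⟨_, rfl⟩
  have hp0 : 0 ≤ p := by linarith
  have hr0 : 0 ≤ r := by linarith
  have key : 1/5 + 107/1000*s^2 - ell (-3/2) (-2) (69/8) (-14) (53) s = (301/83886080)*r^8 + (97/8388608)*p*r^7 + (1417/1048576000)*p^2*r^6 + (21377/1048576000)*p^3*r^5 + (71989/314572800)*p^4*r^4 + (334721/629145600)*p^5*r^3 + (354329/629145600)*p^6*r^2 + (6326567/22020096000)*p^7*r + (2391659/44040192000)*p^8 := by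
    rw [hp, hr]; unfold ell; ring
  have : 0 ≤ 1/5 + 107/1000*s^2 - ell (-3/2) (-2) (69/8) (-14) (53) s := by rw [key]; positivity
  linarith

private lemma vert27 (s : ℝ) (h0 : 0 ≤ s) (h4 : s ≤ 4) : ell (-3/2) (-2) (69/8) (-14) (-53) s ≤ 1/5 + 107/1000*s^2 := by
  rcases le_total s 2 with hb | hb
  · obtain ⟨p, hp⟩ : ∃ p : ℝ, p = s - 0 := ⟨_, rfl⟩
    obtain ⟨r, hr⟩ : ∃ r : ℝ, r = 2 - s := ⟨_, rfl⟩
    have hp0 : 0 ≤ p := by linarith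
    have hr0 : 0 ≤ r := by linarith
    have key : 1/5 + 107/1000*s^2 - ell (-3/2) (-2) (69/8) (-14) (-53) s = (301/655360)*r^9 + (889/327680)*p*r^8 + (47823/8192000)*p^2*r^7 + (40911/8192000)*p^3*r^6 + (16937/12288000)*p^4*r^5 + (19627/4915200)*p^5*r^4 + (54679/4915200)*p^6*r^3 + (657351/57344000)*p^7*r^2 + (608329/114688000)*p^8*r + (80909/86016000)*p^9 := by
      rw [hp, hr]; unfold ell; ring
    have : 0 ≤ 1/5 + 107/1000*s^2 - ell (-3/2) (-2) (69/8) (-14) (-53) s := by rw [key]; positivity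
    linarith
  ·
    obtain ⟨p, hp⟩ : ∃ p : ℝ, p = s - 2 := ⟨_, rfl⟩
    obtain ⟨r, hr⟩ : ∃ r : ℝ, r = 4 - s := ⟨_, rfl⟩
    have hp0 : 0 ≤ p := by linarith
    have hr0 : 0 ≤ r := by linarith
    have key : 1/5 + 107/1000*s^2 - ell (-3/2) (-2) (69/8) (-14) (-53) s = (80909/21504000)*r^7 + (479027/12288000)*p*r^6 + (170451/1024000)*p^2*r^5 + (309389/819200)*p^3*r^4 + (302249/614400)*p^4*r^3 + (1512471/4096000)*p^5*r^2 + (458083/3072000)*p^6*r + (728673/28672000)*p^7 := by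
      rw [hp, hr]; unfold ell; ring
    have : 0 ≤ 1/5 + 107/1000*s^2 - ell (-3/2) (-2) (69/8) (-14) (-53) s := by rw [key]; positivity
    linarith

private lemma vert28 (s : ℝ) (h0 : 0 ≤ s) (h4 : s ≤ 4) : ell (-3/2) (-2) (-69/8) (16) (53) s ≤ 1/5 + 107/1000*s^2 := by
  obtain ⟨p, hp⟩ : ∃ p : ℝ, p = s - 0 := ⟨_, rfl⟩
  obtain ⟨r, hr⟩ : ∃ r : ℝ, r = 4 - s := ⟨_, rfl⟩
  have hp0 : 0 ≤ p := by linarith
  have hr0 : 0 ≤ r := by linarith
  have key : 1/5 + 107/1000*s^2 - ell (-3/2) (-2) (-69/8) (16) (53) s = (47/2621440)*r^7 + (1287/10485760)*p*r^6 + (46871/131072000)*p^2*r^5 + (23077/52428800)*p^3*r^4 + (2117/9830400)*p^4*r^3 + (20253/52428800)*p^5*r^2 + (2029/3145728)*p^6*r + (1306867/5505024000)*p^7 := by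
    rw [hp, hr]; unfold ell; ring
  have : 0 ≤ 1/5 + 107/1000*s^2 - ell (-3/2) (-2) (-69/8) (16) (53) s := by rw [key]; positivity
  linarith

private lemma vert29 (s : ℝ) (h0 : 0 ≤ s) (h4 : s ≤ 4) : ell (-3/2) (-2) (-69/8) (16) (-53) s ≤ 1/5 + 107/1000*s^2 := by
  obtain ⟨p, hp⟩ : ∃ p : ℝ, p = s - 0 := ⟨_, rfl⟩
  obtain ⟨r, hr⟩ : ∃ r : ℝ, r = 4 - s := ⟨_, rfl⟩
  have hp0 : 0 ≤ p := by linarith
  have hr0 : 0 ≤ r := by linarith
  have key : 1/5 + 107/1000*s^2 - ell (-3/2) (-2) (-69/8) (16) (-53) s = (47/2621440)*r^7 + (215/2097152)*p*r^6 + (30971/131072000)*p^2*r^5 + (15657/52428800)*p^3*r^4 + (2251/4915200)*p^4*r^3 + (8333/10485760)*p^5*r^2 + (51361/78643200)*p^6*r + (401349/1835008000)*p^7 := by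
    rw [hp, hr]; unfold ell; ring
  have : 0 ≤ 1/5 + 107/1000*s^2 - ell (-3/2) (-2) (-69/8) (16) (-53) s := by rw [key]; positivity
  linarith

private lemma vert30 (s : ℝ) (h0 : 0 ≤ s) (h4 : s ≤ 4) : ell (-3/2) (-2) (-69/8) (-14) (53) s ≤ 1/5 + 107/1000*s^2 := by
  obtain ⟨p, hp⟩ : ∃ p : ℝ, p = s - 0 := ⟨_, rfl⟩
  obtain ⟨r, hr⟩ : ∃ r : ℝ, r = 4 - s := ⟨_, rfl⟩
  have hp0 : 0 ≤ p := by linarith
  have hr0 : 0 ≤ r := by linarith
  have key : 1/5 + 107/1000*s^2 - ell (-3/2) (-2) (-69/8) (-14) (53) s = (301/20971520)*r^7 + (2049/20971520)*p*r^6 + (193109/524288000)*p^2*r^5 + (78029/104857600)*p^3*r^4 + (226369/314572800)*p^4*r^3 + (50631/104857600)*p^5*r^2 + (6097/12582912)*p^6*r + (2343359/11010048000)*p^7 := by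
    rw [hp, hr]; unfold ell; ring
  have : 0 ≤ 1/5 + 107/1000*s^2 - ell (-3/2) (-2) (-69/8) (-14) (53) s := by rw [key]; positivity
  linarith

private lemma vert31 (s : ℝ) (h0 : 0 ≤ s) (h4 : s ≤ 4) : ell (-3/2) (-2) (-69/8) (-14) (-53) s ≤ 1/5 + 107/1000*s^2 := by
  obtain ⟨p, hp⟩ : ∃ p : ℝ, p = s - 0 := ⟨_, rfl⟩
  obtain ⟨r, hr⟩ : ∃ r : ℝ, r = 4 - s := ⟨_, rfl⟩
  have hp0 : 0 ≤ p := by linarith
  have hr0 : 0 ≤ r := by linarith
  have key : 1/5 + 107/1000*s^2 - ell (-3/2) (-2) (-69/8) (-14) (-53) s = (301/20971520)*r^7 + (325/4194304)*p*r^6 + (129509/524288000)*p^2*r^5 + (63189/104857600)*p^3*r^4 + (302689/314572800)*p^4*r^3 + (18691/20971520)*p^5*r^2 + (154969/314572800)*p^6*r + (712573/3670016000)*p^7 := by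
    rw [hp, hr]; unfold ell; ring
  have : 0 ≤ 1/5 + 107/1000*s^2 - ell (-3/2) (-2) (-69/8) (-14) (-53) s := by rw [key]; positivity
  linarith

private lemma mul_le_max {c lo hi h : ℝ} (h1 : lo ≤ c) (h2 : c ≤ hi) :
    (0 ≤ h ∧ c * h ≤ hi * h) ∨ (h ≤ 0 ∧ c * h ≤ lo * h) := by
  rcases le_total 0 h with hh | hh
  · exact Or.inl ⟨hh, mul_le_mul_of_nonneg_right h2 hh⟩
  · exact Or.inr ⟨hh, mul_le_mul_of_nonpos_right h1 hh⟩

private lemma ell_le_pos {c3 c4 c5 c6 c7 s : ℝ} (h3 : |c3| ≤ 3/2) (h4l : -2 ≤ c4) (h4u : c4 ≤ 1)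
    (h5 : |c5| ≤ 69/8) (h6l : -14 ≤ c6) (h6u : c6 ≤ 16) (h7 : |c7| ≤ 53) (h0 : 0 ≤ s) (hs : s ≤ 4) :
    ell c3 c4 c5 c6 c7 s ≤ 1/5 + 107/1000*s^2 := by
  obtain ⟨h3l, h3u⟩ := abs_le.1 h3
  obtain ⟨h5l, h5u⟩ := abs_le.1 h5
  obtain ⟨h7l, h7u⟩ := abs_le.1 h7
  rcases mul_le_max (h := (s^3 - 6*s) / 48) h3l h3u with ⟨-, k3⟩ | ⟨-, k3⟩ <;>
  rcases mul_le_max (h := (s^4 - 12*s^2 + 12) / 384) h4l h4u with ⟨-, k4⟩ | ⟨-, k4⟩ <;>
  rcases mul_le_max (h := (s^5 - 20*s^3 + 60*s) / 3840) h5l h5u with ⟨-, k5⟩ | ⟨-, k5⟩ <;>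
  rcases mul_le_max (h := (s^6 - 30*s^4 + 180*s^2 - 120) / 61440) h6l h6u with ⟨-, k6⟩ | ⟨-, k6⟩ <;>
  rcases mul_le_max (h := (s^7 - 42*s^5 + 420*s^3 - 840*s) / 1075200) h7l h7u with ⟨-, k7⟩ | ⟨-, k7⟩
  · have := vert0 s h0 hs; unfold ell at this ⊢; linarith
  · have := vert1 s h0 hs; unfold ell at this ⊢; linarith
  · have := vert2 s h0 hs; unfold ell at this ⊢; linarith
  · have := vert3 s h0 hs; unfold ell at this ⊢; linarith
  · have := vert4 s h0 hs; unfold ell at this ⊢; linarith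
  · have := vert5 s h0 hs; unfold ell at this ⊢; linarith
  · have := vert6 s h0 hs; unfold ell at this ⊢; linarith
  · have := vert7 s h0 hs; unfold ell at this ⊢; linarith
  · have := vert8 s h0 hs; unfold ell at this ⊢; linarith
  · have := vert9 s h0 hs; unfold ell at this ⊢; linarith
  · have := vert10 s h0 hs; unfold ell at this ⊢; linarith
  · have := vert11 s h0 hs; unfold ell at this ⊢; linarith
  · have := vert12 s h0 hs; unfold ell at this ⊢; linarith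
  · have := vert13 s h0 hs; unfold ell at this ⊢; linarith
  · have := vert14 s h0 hs; unfold ell at this ⊢; linarith
  · have := vert15 s h0 hs; unfold ell at this ⊢; linarith
  · have := vert16 s h0 hs; unfold ell at this ⊢; linarith
  · have := vert17 s h0 hs; unfold ell at this ⊢; linarith
  · have := vert18 s h0 hs; unfold ell at this ⊢; linarith
  · have := vert19 s h0 hs; unfold ell at this ⊢; linarith
  · have := vert20 s h0 hs; unfold ell at this ⊢; linarith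
  · have := vert21 s h0 hs; unfold ell at this ⊢; linarith
  · have := vert22 s h0 hs; unfold ell at this ⊢; linarith
  · have := vert23 s h0 hs; unfold ell at this ⊢; linarith
  · have := vert24 s h0 hs; unfold ell at this ⊢; linarith
  · have := vert25 s h0 hs; unfold ell at this ⊢; linarith
  · have := vert26 s h0 hs; unfold ell at this ⊢; linarith
  · have := vert27 s h0 hs; unfold ell at this ⊢; linarith
  · have := vert28 s h0 hs; unfold ell at this ⊢; linarith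
  · have := vert29 s h0 hs; unfold ell at this ⊢; linarith
  · have := vert30 s h0 hs; unfold ell at this ⊢; linarith
  · have := vert31 s h0 hs; unfold ell at this ⊢; linarith

theorem ell_le {c3 c4 c5 c6 c7 s : ℝ} (h3 : |c3| ≤ 3/2) (h4l : -2 ≤ c4) (h4u : c4 ≤ 1)
    (h5 : |c5| ≤ 69/8) (h6l : -14 ≤ c6) (h6u : c6 ≤ 16) (h7 : |c7| ≤ 53) (hs : |s| ≤ 4) :
    ell c3 c4 c5 c6 c7 s ≤ 1/5 + 107/1000*s^2 := by
  obtain ⟨hl, hu⟩ := abs_le.1 hs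
  rcases le_total 0 s with h | h
  · exact ell_le_pos h3 h4l h4u h5 h6l h6u h7 h hu
  · have := ell_le_pos (c3 := -c3) (c4 := c4) (c5 := -c5) (c6 := c6) (c7 := -c7) (s := -s)
      (by rwa [abs_neg]) h4l h4u (by rwa [abs_neg]) h6l h6u (by rwa [abs_neg]) (by linarith) (by linarith)
    have e : ell (-c3) c4 (-c5) c6 (-c7) (-s) = ell c3 c4 c5 c6 c7 s := by unfold ell; ring
    rw [e] at this
    have e2 : (-s)^2 = s^2 := by ring
    rw [e2] at this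
    exact this

/-- exponential bound -/
theorem exp_quad {x : ℝ} (h0 : 0 ≤ x) (h2 : x ≤ 2) :
    Real.exp x ≤ 1 + x + x^2/2 * (1 + x/3 + 2*x^2/15) := by
  have hb := Real.exp_bound' (x := x/2) (by linarith) (by linarith) (n := 5) (by norm_num)
  obtain ⟨t, ht⟩ : ∃ t : ℝ, t = x/2 := ⟨_, rfl⟩
  obtain ⟨r, hr⟩ : ∃ r : ℝ, r = 1 - t := ⟨_, rfl⟩
  have ht0 : 0 ≤ t := by linarith
  have hr0 : 0 ≤ r := by linarith
  rw [← ht] at hb
  simp only [Finset.sum_range_succ, Finset.sum_range_zero, Nat.factorial] at hb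
  norm_num at hb
  have e : Real.exp x = Real.exp t * Real.exp t := by
    rw [← Real.exp_add]; congr 1; rw [ht]; ring
  have hT : Real.exp t ≤ 1 + t + t^2/2 + t^3/6 + t^4/24 + t^5/100 := by linarith
  have h1 : Real.exp x ≤ (1 + t + t^2/2 + t^3/6 + t^4/24 + t^5/100)^2 := by
    rw [e, sq]
    exact mul_le_mul hT hT (Real.exp_pos _).le (by positivity)
  have key : 1 + x + x^2/2 * (1 + x/3 + 2*x^2/15) - (1 + t + t^2/2 + t^3/6 + t^4/24 + t^5/100)^2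
      = t^4 * (2/5*t^0*r^6 + 213/100*t^1*r^5 + 8209/1800*t^2*r^4 + 2951/600*t^3*r^3 + 38687/14400*t^4*r^2 + 1463/2400*t^5*r^1 + 3839/360000*t^6*r^0) := by
    have hx : x = 2*t := by rw [ht]; ring
    rw [hx, hr]; ring
  have : 0 ≤ 1 + x + x^2/2 * (1 + x/3 + 2*x^2/15)
      - (1 + t + t^2/2 + t^3/6 + t^4/24 + t^5/100)^2 := by
    rw [key]; positivity
  linarith

/-- `exp ell ≤ 1 + ell + (a + b s²) ell²` on `|s| ≤ 4`. -/
theorem exp_ell_le {c3 c4 c5 c6 c7 s : ℝ} (h3 : |c3| ≤ 3/2) (h4l : -2 ≤ c4) (h4u : c4 ≤ 1)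
    (h5 : |c5| ≤ 69/8) (h6l : -14 ≤ c6) (h6u : c6 ≤ 16) (h7 : |c7| ≤ 53) (hs : |s| ≤ 4) :
    Real.exp (ell c3 c4 c5 c6 c7 s) ≤ 1 + ell c3 c4 c5 c6 c7 s
      + (27/50 + 33/1000*s^2) * (ell c3 c4 c5 c6 c7 s)^2 := by
  have hl := ell_le h3 h4l h4u h5 h6l h6u h7 hs
  obtain ⟨x, hx⟩ : ∃ x, x = ell c3 c4 c5 c6 c7 s := ⟨_, rfl⟩
  rw [← hx] at hl ⊢
  have hs2 : s^2 ≤ 16 := by
    obtain ⟨h1, h2⟩ := abs_le.1 hs
    nlinarith
  have hs0 : 0 ≤ s^2 := sq_nonneg s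
  rcases le_total 0 x with h | h
  · have hx2 : x ≤ 2 := by nlinarith
    have he := exp_quad h hx2
    have hk : 1/2*(1 + x/3 + 2*x^2/15) ≤ 27/50 + 33/1000*s^2 := by
      have hxx : x^2 ≤ (1/5 + 107/1000*s^2)^2 := by
        apply pow_le_pow_left₀ h hl
      nlinarith
    have := mul_le_mul_of_nonneg_right hk (sq_nonneg x)
    nlinarith
  · have he : Real.exp x ≤ 1 + x + x^2/2 := by
      have hq := Real.quadratic_le_exp_of_nonneg (x := -x) (by linarith)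
      have hm : Real.exp x * Real.exp (-x) = 1 := by rw [← Real.exp_add]; simp
      have hp := Real.exp_pos x
      have h1 : Real.exp x * (1 + -x + (-x)^2/2) ≤ 1 := by
        exact (mul_le_mul_of_nonneg_left hq hp.le).trans hm.le
      have h2 : (1 + -x + (-x)^2/2) * (1 + x + x^2/2) = 1 + x^4/4 := by ring
      have h3 : 0 < 1 + -x + (-x)^2/2 := by nlinarith
      have h4 : 0 ≤ x^4 := by positivity
      by_contra hcon
      push Not at hcon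
      nlinarith [mul_lt_mul_of_pos_left hcon h3]
    nlinarith [sq_nonneg x, mul_nonneg hs0 (sq_nonneg x)]

end PoolAgent.H82R2
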