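import Mathlib
import Pool.Agent.Lib.MP_ec2ab1_pr_h82.Cert1

/-! Truncated Gaussian integral of the quadratic majorant. -/

open MeasureTheory intervalIntegral

namespace PoolAgent.H82R2

private lemma hE (s : ℝ) : HasDerivAt (fun s : ℝ => Real.exp (-s^2/4)) (-(s/2) * Real.exp (-s^2/4)) s := by
  have h : HasDerivAt (fun s : ℝ => -s^2/4) (-(s/2)) s := by
    have := ((hasDerivAt_pow 2 s).neg).div_const 4
    refine this.congr_deriv ?_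
    norm_num; ring
  have := h.exp
  refine this.congr_deriv ?_
  ring

/-- integration by parts in one step -/
theorem trunc_ftc (P R R' : ℝ → ℝ) (K : ℝ) (hR : ∀ s, HasDerivAt R (R' s) s) (hR'c : Continuous R')
    (hid : ∀ s, P s = K + R' s - s/2 * R s) :
    ∫ s in (-4 : ℝ)..4, P s * Real.exp (-s^2/4)
      = K * (∫ s in (-4 : ℝ)..4, Real.exp (-s^2/4)) + (R 4 - R (-4)) * Real.exp (-4) := by
  have hRc : Continuous R := continuous_iff_continuousAt.2 fun s => (hR s).continuousAt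
  have hEc : Continuous (fun s : ℝ => Real.exp (-s^2/4)) := by fun_prop
  have hd : ∀ s ∈ Set.uIcc (-4 : ℝ) 4, HasDerivAt (fun s => R s * Real.exp (-s^2/4))
      ((R' s - s/2 * R s) * Real.exp (-s^2/4)) s := by
    intro s _
    refine ((hR s).mul (hE s)).congr_deriv ?_
    ring
  have hi : IntervalIntegrable (fun s => (R' s - s/2 * R s) * Real.exp (-s^2/4)) volume (-4) 4 := by
    apply Continuous.intervalIntegrable
    fun_prop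
  have h1 := integral_eq_sub_of_hasDerivAt hd hi
  have h2 : ∀ s, P s * Real.exp (-s^2/4)
      = K * Real.exp (-s^2/4) + (R' s - s/2 * R s) * Real.exp (-s^2/4) := by
    intro s; rw [hid s]; ring
  simp_rw [h2]
  rw [integral_add ((hEc.intervalIntegrable _ _).const_mul K) hi, intervalIntegral.integral_const_mul, h1]
  have e1 : (-(4:ℝ)^2/4) = -4 := by norm_num
  have e2 : (-(-4:ℝ)^2/4) = -4 := by norm_num
  rw [e1, e2]; ring

/-- Gaussian part -/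
noncomputable def KK (c3 c4 c5 c6 c7 : ℝ) : ℝ :=
  1 + (167/8000)*c3*c3 + (11/8000)*c3*c5 + (189/64000)*c4*c4 + (33/256000)*c4*c6 + (211/640000)*c5*c5 + (33/3200000)*c5*c7 + (699/40960000)*c6*c6 + (153/179200000)*c7*c7

/-- boundary part -/
noncomputable def WW (c3 c4 c5 c6 c7 : ℝ) : ℝ :=
  (-5/12)*c4 + (1/960)*c6 + (-1361/600)*c3*c3 + (-2569/5000)*c3*c5 + (221/210000)*c3*c7 + (-41131/96000)*c4*c4 + (-151189/3840000)*c4*c6 + (-19461/400000)*c5*c5 + (-58231/21000000)*c5*c7 + (-1576943/614400000)*c6*c6 + (-822317/5880000000)*c7*c7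

theorem int_quad (c3 c4 c5 c6 c7 : ℝ) :
    ∫ s in (-4 : ℝ)..4, (1 + ell c3 c4 c5 c6 c7 s
        + (27/50 + 33/1000*s^2) * (ell c3 c4 c5 c6 c7 s)^2) * Real.exp (-s^2/4)
      = KK c3 c4 c5 c6 c7 * (∫ s in (-4 : ℝ)..4, Real.exp (-s^2/4))
        + WW c3 c4 c5 c6 c7 * Real.exp (-4) := by
  obtain ⟨r0, hr0⟩ : ∃ r : ℝ, r = (1/12)*c3 + (-1/160)*c5 + (1/4480)*c7 + (-161/8000)*c3*c4 + (-7/320000)*c3*c6 + (-43/16000)*c4*c5 + (-3/6400000)*c4*c7 + (-41/204800)*c5*c6 + (-27/2560000)*c6*c7 := ⟨_, rfl⟩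
  obtain ⟨r1, hr1⟩ : ∃ r : ℝ, r = (1/32)*c4 + (-1/512)*c6 + (-167/8000)*c3*c3 + (-11/8000)*c3*c5 + (-621/256000)*c4*c4 + (-399/2048000)*c4*c6 + (-211/640000)*c5*c5 + (-33/3200000)*c5*c7 + (-4917/327680000)*c6*c6 + (-153/179200000)*c7*c7 := ⟨_, rfl⟩
  obtain ⟨r2, hr2⟩ : ∃ r : ℝ, r = (-1/24)*c3 + (1/160)*c5 + (-3/8960)*c7 + (-457/64000)*c3*c4 + (647/5120000)*c3*c6 + (-209/512000)*c4*c5 + (-681/51200000)*c4*c7 + (-109/1638400)*c5*c6 + (-297/163840000)*c6*c7 := ⟨_, rfl⟩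
  obtain ⟨r3, hr3⟩ : ∃ r : ℝ, r = (-1/192)*c4 + (1/1536)*c6 + (-1/1500)*c3*c3 + (-179/192000)*c3*c5 + (9/256000)*c3*c7 + (-763/1024000)*c4*c4 + (173/8192000)*c4*c6 + (-169/15360000)*c5*c5 + (-313/51200000)*c5*c7 + (-5923/1310720000)*c6*c6 + (-93/2867200000)*c7*c7 := ⟨_, rfl⟩
  obtain ⟨r4, hr4⟩ : ∃ r : ℝ, r = (-1/1920)*c5 + (1/17920)*c7 + (7/25600)*c3*c4 + (-461/5120000)*c3*c6 + (-7/32000)*c4*c5 + (801/102400000)*c4*c7 + (103/16384000)*c5*c6 + (-21/20480000)*c6*c7 := ⟨_, rfl⟩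
  obtain ⟨r5, hr5⟩ : ∃ r : ℝ, r = (-1/30720)*c6 + (-101/192000)*c3*c3 + (353/3840000)*c3*c5 + (-237/25600000)*c3*c7 + (73/2048000)*c4*c4 + (-821/40960000)*c4*c6 + (-5243/307200000)*c5*c5 + (1459/1024000000)*c5*c7 + (7937/13107200000)*c6*c6 + (-747/11468800000)*c7*c7 := ⟨_, rfl⟩
  obtain ⟨r6, hr6⟩ : ∃ r : ℝ, r = (-1/537600)*c7 + (-79/768000)*c3*c4 + (307/30720000)*c3*c6 + (13/1024000)*c4*c5 + (-177/102400000)*c4*c7 + (-151/49152000)*c5*c6 + (111/655360000)*c6*c7 := ⟨_, rfl⟩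
  obtain ⟨r7, hr7⟩ : ∃ r : ℝ, r = (-11/384000)*c3*c3 + (-23/3840000)*c3*c5 + (263/358400000)*c3*c7 + (-19/4096000)*c4*c4 + (23/20480000)*c4*c6 + (451/614400000)*c5*c5 + (-1733/7168000000)*c5*c7 + (-871/6553600000)*c6*c6 + (1437/160563200000)*c7*c7 := ⟨_, rfl⟩
  obtain ⟨r8, hr8⟩ : ∃ r : ℝ, r = (-11/1536000)*c3*c4 + (-1/61440000)*c3*c6 + (-1/2560000)*c4*c5 + (101/1433600000)*c4*c7 + (47/491520000)*c5*c6 + (-111/5734400000)*c6*c7 := ⟨_, rfl⟩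
  obtain ⟨r9, hr9⟩ : ∃ r : ℝ, r = (-11/15360000)*c3*c5 + (53/2150400000)*c3*c7 + (-11/24576000)*c4*c4 + (1/49152000)*c4*c6 + (3/409600000)*c5*c5 + (29/7168000000)*c5*c7 + (151/78643200000)*c6*c6 + (-1/1568000000)*c7*c7 := ⟨_, rfl⟩
  obtain ⟨r10, hr10⟩ : ∃ r : ℝ, r = (-11/245760000)*c3*c6 + (-11/122880000)*c4*c5 + (1/229376000)*c4*c7 + (53/9830400000)*c5*c6 + (-17/458752000000)*c6*c7 := ⟨_, rfl⟩
  obtain ⟨r11, hr11⟩ : ∃ r : ℝ, r = (-11/4300800000)*c3*c7 + (-11/1966080000)*c4*c6 + (-11/2457600000)*c5*c5 + (9/14336000000)*c5*c7 + (97/314572800000)*c6*c6 + (-23/1605632000000)*c7*c7 := ⟨_, rfl⟩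
  obtain ⟨r12, hr12⟩ : ∃ r : ℝ, r = (-11/34406400000)*c4*c7 + (-11/19660800000)*c5*c6 + (19/344064000000)*c6*c7 := ⟨_, rfl⟩
  obtain ⟨r13, hr13⟩ : ∃ r : ℝ, r = (-11/344064000000)*c5*c7 + (-11/629145600000)*c6*c6 + (69/32112640000000)*c7*c7 := ⟨_, rfl⟩
  obtain ⟨r14, hr14⟩ : ∃ r : ℝ, r = (-11/5505024000000)*c6*c7 := ⟨_, rfl⟩
  obtain ⟨r15, hr15⟩ : ∃ r : ℝ, r = (-11/192675840000000)*c7*c7 := ⟨_, rfl⟩
  rw [trunc_ftc _ (fun s => r0*s^0 + r1*s^1 + r2*s^2 + r3*s^3 + r4*s^4 + r5*s^5 + r6*s^6 + r7*s^7 + r8*s^8 + r9*s^9 + r10*s^10 + r11*s^11 + r12*s^12 + r13*s^13 + r14*s^14 + r15*s^15)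
    (fun s => r1*(1*s^0) + r2*(2*s^1) + r3*(3*s^2) + r4*(4*s^3) + r5*(5*s^4) + r6*(6*s^5) + r7*(7*s^6) + r8*(8*s^7) + r9*(9*s^8) + r10*(10*s^9) + r11*(11*s^10) + r12*(12*s^11) + r13*(13*s^12) + r14*(14*s^13) + r15*(15*s^14)) (KK c3 c4 c5 c6 c7)]
  · congr 2
    rw [hr0, hr1, hr2, hr3, hr4, hr5, hr6, hr7, hr8, hr9, hr10, hr11, hr12, hr13, hr14, hr15]
    unfold WW; ring
  · intro s
    have := (((((((((((((((((hasDerivAt_pow 0 s).const_mul r0).add ((hasDerivAt_pow 1 s).const_mul r1)).add ((hasDerivAt_pow 2 s).const_mul r2)).add ((hasDerivAt_pow 3 s).const_mul r3)).add ((hasDerivAt_pow 4 s).const_mul r4)).add ((hasDerivAt_pow 5 s).const_mul r5)).add ((hasDerivAt_pow 6 s).const_mul r6)).add ((hasDerivAt_pow 7 s).const_mul r7)).add ((hasDerivAt_pow 8 s).const_mul r8)).add ((hasDerivAt_pow 9 s).const_mul r9)).add ((hasDerivAt_pow 10 s).const_mul r10)).add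 ((hasDerivAt_pow 11 s).const_mul r11)).add ((hasDerivAt_pow 12 s).const_mul r12)).add ((hasDerivAt_pow 13 s).const_mul r13)).add ((hasDerivAt_pow 14 s).const_mul r14)).add ((hasDerivAt_pow 15 s).const_mul r15))
    refine this.congr_deriv ?_
    push_cast; ring
  · fun_prop
  · intro s
    rw [hr0, hr1, hr2, hr3, hr4, hr5, hr6, hr7, hr8, hr9, hr10, hr11, hr12, hr13, hr14, hr15]
    unfold KK ell; ring

end PoolAgent.H82R2
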