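import Mathlib
import Pool.Agent.Lib.MP_ec2ab1_pr_h82.Cert1
import Pool.Agent.Lib.MP_ec2ab1_pr_h82.Cert2

/-! Final inequality of the certificate for `|X - EX| ≤ 2σ`. -/

open MeasureTheory Set Filter Topology

namespace PoolAgent.H82R2

/-- `E_U ell` in terms of the Hermite moments. -/
noncomputable def EU (c3 c4 c5 c6 c7 : ℝ) : ℝ :=
  2*c3^2/48 + 2*c4^2/384 + 2*c5^2/3840 + c6*(2*c6 + 20*c3^2)/61440 + c7*(2*c7 + 70*c3*c4)/1075200

/-- low modes of the chi-square divergence. -/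
noncomputable def BE (c3 c4 c5 c6 c7 : ℝ) : ℝ :=
  c3^2/48 + c4^2/384 + c5^2/3840 + c6^2/46080 + c7^2/645120

private lemma sos_lo (c3 c4 c5 c6 c7 : ℝ) : 0 ≤ 2*c3^2/48 + 2*c4^2/384 + 2*c5^2/3840 + 2*c6^2/61440 + 2*c7^2/1075200 - 280*c3^2/61440 - 3710*(c3*c4)/1075200 - BE c3 c4 c5 c6 c7 - (261/5000)^2 + 1 - KK c3 c4 c5 c6 c7 * (1 - 104/115*(51667/10000000)) - WW c3 c4 c5 c6 c7 * (51667/10000000) := by
  have key : 2*c3^2/48 + 2*c4^2/384 + 2*c5^2/3840 + 2*c6^2/61440 + 2*c7^2/1075200 - 280*c3^2/61440 - 3710*(c3*c4)/1075200 - BE c3 c4 c5 c6 c7 - (261/5000)^2 + 1 - KK c3 c4 c5 c6 c7 * (1 - 104/115*(51667/10000000)) - WW c3 c4 c5 c6 c7 * (51667/10000000)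
      = (3487/10000)*((c3/7) + (-6927/10000)*(c4/20) + (8003/10000)*(c5/62) + (-219/5000)*(c7/803))^2 + (14477/25000)*((c4/20) + (1669/5000)*(c5/62) + (2789/10000)*(c6/215) + (-183/10000)*(c7/803) + (1487/2000)*(1/20))^2 + (20653/50000)*((c5/62) + (-261/2000)*(c6/215) + (283/1000)*(c7/803) + (-3479/10000)*(1/20))^2 + (851/3125)*((c6/215) + (669/10000)*(c7/803) + (-5523/10000)*(1/20))^2 + (7769/100000)*((c7/803) + (943/1250)*(1/20))^2 + (27667/100000)*((1/20))^2 + (4819/600000000)*((c3/7) + (c4/20))^2 + (1574947/115000000000)*((c3/7) + (c5/62))^2 + (5144821/600000000000)*((c3/7) - (c7/803))^2 + (11151347/1000000000000)*((c4/20) + (c5/62))^2 + (9718063/3532800000000)*((c4/20) + (c6/215))^2 + (8757669/500000000000)*((c4/20) + (c7/803))^2 + (1853/150000000)*((c4/20) + (1/20))^2 + (7720657/1250000000000)*((c5/62) - (c6/215))^2 + (12414405589/1380000000000000)*((c5/62) - (c7/803))^2 + (3168531/250000000000)*((c5/62)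 - (1/20))^2 + (9666963/1250000000000)*((c6/215) - (c7/803))^2 + (566039/375000000000)*((c6/215) - (1/20))^2 + (396057/1250000000000)*((c7/803) - (1/20))^2 + (2982126691/600000000000)*(c3/7)^2 + (3644024172587/736000000000000)*(c4/20)^2 + (6832611490507/1380000000000000)*(c5/62)^2 + (10567496437233101/2119680000000000000)*(c6/215)^2 + (821318634826187/165600000000000000)*(c7/803)^2 + (1717137001957/345000000000000)*(1/20)^2 := by
    unfold BE KK WW; ring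
  rw [key]; positivity

private lemma sos_hi (c3 c4 c5 c6 c7 : ℝ) : 0 ≤ 2*c3^2/48 + 2*c4^2/384 + 2*c5^2/3840 + 2*c6^2/61440 + 2*c7^2/1075200 - 280*c3^2/61440 - 3710*(c3*c4)/1075200 - BE c3 c4 c5 c6 c7 - (261/5000)^2 + 1 - KK c3 c4 c5 c6 c7 * (1 - 104/115*(12917/2500000)) - WW c3 c4 c5 c6 c7 * (12917/2500000) := by
  have key : 2*c3^2/48 + 2*c4^2/384 + 2*c5^2/3840 + 2*c6^2/61440 + 2*c7^2/1075200 - 280*c3^2/61440 - 3710*(c3*c4)/1075200 - BE c3 c4 c5 c6 c7 - (261/5000)^2 + 1 - KK c3 c4 c5 c6 c7 * (1 - 104/115*(12917/2500000)) - WW c3 c4 c5 c6 c7 * (12917/2500000)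
      = (34871/100000)*((c3/7) + (-6927/10000)*(c4/20) + (8003/10000)*(c5/62) + (-219/5000)*(c7/803))^2 + (5791/10000)*((c4/20) + (1669/5000)*(c5/62) + (2789/10000)*(c6/215) + (-183/10000)*(c7/803) + (1487/2000)*(1/20))^2 + (41307/100000)*((c5/62) + (-261/2000)*(c6/215) + (283/1000)*(c7/803) + (-3479/10000)*(1/20))^2 + (27233/100000)*((c6/215) + (669/10000)*(c7/803) + (-5523/10000)*(1/20))^2 + (777/10000)*((c7/803) + (7543/10000)*(1/20))^2 + (2767/10000)*((1/20))^2 + (11219/750000000)*((c3/7) + (c4/20))^2 + (1939893/115000000000)*((c3/7) + (c5/62))^2 + (1264871/150000000000)*((c3/7) - (c7/803))^2 + (100190251/10000000000000)*((c4/20) + (c5/62))^2 + (25007293/4416000000000)*((c4/20) + (c6/215))^2 + (87889677/5000000000000)*((c4/20) + (c7/803))^2 + (349/60000000)*((c4/20) + (1/20))^2 + (3366731/500000000000)*((c5/62) - (c6/215))^2 + (5346129727/1207500000000000)*((c5/62) - (c7/803))^2 +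 (1415873/100000000000)*((c5/62) - (1/20))^2 + (3965589/500000000000)*((c6/215) - (c7/803))^2 + (4869889/6000000000000)*((c6/215) - (1/20))^2 + (15353211/10000000000000)*((c7/803) + (1/20))^2 + (744219041/150000000000)*(c3/7)^2 + (4546026845537/920000000000000)*(c4/20)^2 + (3986228763437/805000000000000)*(c5/62)^2 + (21123295605607/4239360000000000)*(c6/215)^2 + (10064050034956913/2028600000000000000)*(c7/803)^2 + (68705078159/13800000000000)*(1/20)^2 := by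
    unfold BE KK WW; ring
  rw [key]; positivity

private lemma quad_pos (c3 c4 c5 c6 c7 φ : ℝ) (h1 : 51667/10000000 ≤ φ) (h2 : φ ≤ 51668/10000000) :
    0 ≤ 2*c3^2/48 + 2*c4^2/384 + 2*c5^2/3840 + 2*c6^2/61440 + 2*c7^2/1075200 - 280*c3^2/61440 - 3710*(c3*c4)/1075200 - BE c3 c4 c5 c6 c7 - (261/5000)^2 + 1 - KK c3 c4 c5 c6 c7 * (1 - 104/115*(φ)) - WW c3 c4 c5 c6 c7 * (φ) := by
  have hlo := sos_lo c3 c4 c5 c6 c7
  have hhi := sos_hi c3 c4 c5 c6 c7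
  obtain ⟨B, hB⟩ : ∃ B, B = BE c3 c4 c5 c6 c7 := ⟨_, rfl⟩
  obtain ⟨K, hK⟩ : ∃ K, K = KK c3 c4 c5 c6 c7 := ⟨_, rfl⟩
  obtain ⟨W, hW⟩ : ∃ W, W = WW c3 c4 c5 c6 c7 := ⟨_, rfl⟩
  rw [← hB, ← hK, ← hW] at hlo hhi ⊢
  obtain ⟨A, hA⟩ : ∃ A, A = 2*c3^2/48 + 2*c4^2/384 + 2*c5^2/3840 + 2*c6^2/61440 + 2*c7^2/1075200
      - 280*c3^2/61440 - 3710*(c3*c4)/1075200 - B - (261/5000)^2 + 1 - K := ⟨_, rfl⟩
  have hlo' : 0 ≤ A + 51667/10000000 * (104/115*K - W) := by rw [hA]; linarith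
  have hhi' : 0 ≤ A + 51668/10000000 * (104/115*K - W) := by rw [hA]; linarith
  have : 0 ≤ A + φ * (104/115*K - W) := by
    rcases le_total 0 (104/115*K - W) with h | h
    · nlinarith
    · nlinarith
  rw [hA] at this
  linarith

/-- final real inequality -/
theorem final_ineq {c3 c4 c5 c6 c7 φ : ℝ} (h6 : -14 ≤ c6) (h7 : |c7| ≤ 53)
    (h1 : 51667/10000000 ≤ φ) (h2 : φ ≤ 51668/10000000) :
    KK c3 c4 c5 c6 c7 * (1 - 104/115*φ) + WW c3 c4 c5 c6 c7 * φ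
      ≤ 1 + EU c3 c4 c5 c6 c7 - BE c3 c4 c5 c6 c7 - (261/5000)^2 := by
  obtain ⟨h7l, h7u⟩ := abs_le.1 h7
  have hc6 : -14*c3^2 ≤ c6*c3^2 := mul_le_mul_of_nonneg_right h6 (sq_nonneg _)
  rcases le_total 0 (c3*c4) with h | h
  · have hq := quad_pos c3 c4 c5 c6 c7 φ h1 h2
    have h3 : -53*(c3*c4) ≤ c7*(c3*c4) := mul_le_mul_of_nonneg_right h7l h
    unfold EU
    nlinarith
  · have hq := quad_pos (-c3) c4 (-c5) c6 (-c7) φ h1 h2
    have eB : BE (-c3) c4 (-c5) c6 (-c7) = BE c3 c4 c5 c6 c7 := by unfold BE; ring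
    have eK : KK (-c3) c4 (-c5) c6 (-c7) = KK c3 c4 c5 c6 c7 := by unfold KK; ring
    have eW : WW (-c3) c4 (-c5) c6 (-c7) = WW c3 c4 c5 c6 c7 := by unfold WW; ring
    rw [eB, eK, eW] at hq
    have h3 : 53*(c3*c4) ≤ c7*(c3*c4) := mul_le_mul_of_nonpos_right h7u h
    unfold EU
    nlinarith


end PoolAgent.H82R2
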