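import Mathlib
import Pool.Agent.Lib.MP_ec2ab1_pr_h82.Cert1
import Pool.Agent.Lib.MP_ec2ab1_pr_h82.Cert2
import Pool.Agent.Lib.MP_ec2ab1_pr_h82.Cert3

/-! Mills bound and the main inequality of the certificate. -/

open MeasureTheory Set Filter Topology

namespace PoolAgent.H82R2

private lemma hE4 (s : ℝ) : HasDerivAt (fun s : ℝ => Real.exp (-s^2/4)) (-(s/2) * Real.exp (-s^2/4)) s := by
  have h : HasDerivAt (fun s : ℝ => -s^2/4) (-(s/2)) s := by
    have := ((hasDerivAt_pow 2 s).neg).div_const 4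
    refine this.congr_deriv ?_
    norm_num; ring
  have := h.exp
  refine this.congr_deriv ?_
  ring

private lemma int_gauss : ∫ s : ℝ, Real.exp (-s^2/4) = Real.sqrt (4 * Real.pi) := by
  have h := integral_gaussian (1/4 : ℝ)
  have e : ∀ s : ℝ, Real.exp (-s^2/4) = Real.exp (-(1/4) * s^2) := by
    intro s; congr 1; ring
  simp_rw [e, h]
  congr 1; ring

private lemma gauss_int : Integrable (fun s : ℝ => Real.exp (-s^2/4)) := by
  have h := integrable_exp_neg_mul_sq (b := (1/4 : ℝ)) (by norm_num)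
  have e : (fun s : ℝ => Real.exp (-s^2/4)) = (fun s : ℝ => Real.exp (-(1/4) * s^2)) := by
    funext s; congr 1; ring
  rw [e]; exact h

private lemma mills : 208/460 * Real.exp (-4) ≤ ∫ s in Ioi (4 : ℝ), Real.exp (-s^2/4) := by
  have hD : ∀ s : ℝ, 0 < s^4 + 12*s^2 + 12 := by intro s; positivity
  have hder : ∀ s ∈ Ioi (4 : ℝ), HasDerivAt
      (fun s : ℝ => -((2*s^3 + 20*s) / (s^4 + 12*s^2 + 12)) * Real.exp (-s^2/4))
      ((1 - 384/(s^4 + 12*s^2 + 12)^2) * Real.exp (-s^2/4)) s := by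
    intro s _
    have h1 : HasDerivAt (fun s : ℝ => 2*s^3 + 20*s) (2*(3*s^2) + 20) s := by
      have := ((hasDerivAt_pow 3 s).const_mul 2).add ((hasDerivAt_id' s).const_mul 20)
      refine this.congr_deriv ?_
      norm_num
    have h2 : HasDerivAt (fun s : ℝ => s^4 + 12*s^2 + 12) (4*s^3 + 12*(2*s)) s := by
      have := ((hasDerivAt_pow 4 s).add ((hasDerivAt_pow 2 s).const_mul 12)).add_const 12
      refine this.congr_deriv ?_
      norm_num
    have h3 := ((h1.div h2 (hD s).ne').neg).mul (hE4 s)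
    refine h3.congr_deriv ?_
    have hne := (hD s).ne'
    simp only [Pi.neg_apply, Pi.div_apply]
    field_simp
    ring
  have hcont : ContinuousWithinAt
      (fun s : ℝ => -((2*s^3 + 20*s) / (s^4 + 12*s^2 + 12)) * Real.exp (-s^2/4)) (Ici 4) 4 := by
    apply Continuous.continuousWithinAt
    have : Continuous (fun s : ℝ => (2*s^3 + 20*s) / (s^4 + 12*s^2 + 12)) :=
      Continuous.div (by fun_prop) (by fun_prop) (fun s => (hD s).ne')
    fun_prop
  have hpos : ∀ s ∈ Ioi (4 : ℝ), 0 ≤ (1 - 384/(s^4 + 12*s^2 + 12)^2) * Real.exp (-s^2/4) := by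
    intro s hs
    have hs' : (4 : ℝ) < s := hs
    apply mul_nonneg _ (Real.exp_pos _).le
    rw [sub_nonneg, div_le_one (by have := hD s; positivity)]
    have : (24 : ℝ) ≤ s^4 + 12*s^2 + 12 := by nlinarith [sq_nonneg (s^2)]
    nlinarith
  have hlim : Tendsto (fun s : ℝ => -((2*s^3 + 20*s) / (s^4 + 12*s^2 + 12)) * Real.exp (-s^2/4))
      atTop (𝓝 0) := by
    have hexp : Tendsto (fun s : ℝ => Real.exp (-s^2/4)) atTop (𝓝 0) := by
      apply Real.tendsto_exp_atBot.comp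
      have : Tendsto (fun s : ℝ => s^2/4) atTop atTop :=
        (tendsto_pow_atTop (by norm_num)).atTop_div_const (by norm_num)
      have h2 := tendsto_neg_atTop_atBot.comp this
      refine h2.congr ?_
      intro s; simp only [Function.comp]; ring
    have hb : Tendsto (fun s : ℝ => -Real.exp (-s^2/4)) atTop (𝓝 0) := by
      simpa using hexp.neg
    refine tendsto_of_tendsto_of_tendsto_of_le_of_le' hb tendsto_const_nhds ?_ ?_
    · filter_upwards [eventually_ge_atTop (4 : ℝ)] with s hs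
      have h1 : (2*s^3 + 20*s) / (s^4 + 12*s^2 + 12) ≤ 1 := by
        rw [div_le_one (hD s)]
        nlinarith [mul_nonneg (sub_nonneg.2 hs) (sq_nonneg s), sq_nonneg (s*(s-1))]
      have h2 := (Real.exp_pos (-s^2/4)).le
      nlinarith
    · filter_upwards [eventually_ge_atTop (4 : ℝ)] with s hs
      have h1 : 0 ≤ (2*s^3 + 20*s) / (s^4 + 12*s^2 + 12) := by
        apply div_nonneg _ (hD s).le
        have : (0 : ℝ) ≤ s := by linarith
        positivity
      have h2 := (Real.exp_pos (-s^2/4)).le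
      nlinarith [mul_nonneg h1 h2]
  have hint := integrableOn_Ioi_deriv_of_nonneg hcont hder hpos hlim
  have heq := integral_Ioi_of_hasDerivAt_of_nonneg hcont hder hpos hlim
  have hle : ∫ s in Ioi (4 : ℝ), (1 - 384/(s^4 + 12*s^2 + 12)^2) * Real.exp (-s^2/4)
      ≤ ∫ s in Ioi (4 : ℝ), Real.exp (-s^2/4) := by
    apply setIntegral_mono_on hint gauss_int.integrableOn measurableSet_Ioi
    intro s _
    have h1 : 0 ≤ 384/(s^4 + 12*s^2 + 12)^2 := by positivity
    have h2 := (Real.exp_pos (-s^2/4)).le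
    nlinarith
  rw [heq] at hle
  have e4 : (-(4:ℝ)^2/4) = -4 := by norm_num
  rw [e4] at hle
  norm_num at hle ⊢
  linarith

/-- `∫_{-4}^4 e^{-s²/4} ds ≤ √(4π) - 2 (208/460) e^{-4}`. -/
theorem J_le : ∫ s in (-4 : ℝ)..4, Real.exp (-s^2/4)
    ≤ Real.sqrt (4 * Real.pi) - 2 * (208/460 * Real.exp (-4)) := by
  have h1 : (∫ s in Iic (-4 : ℝ), Real.exp (-s^2/4)) = ∫ s in Ioi (4 : ℝ), Real.exp (-s^2/4) := by
    have := integral_comp_neg_Iic (-4 : ℝ) (fun s => Real.exp (-s^2/4))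
    simpa using this
  have h2 := intervalIntegral.integral_Iic_sub_Iic (μ := volume)
    (f := fun s : ℝ => Real.exp (-s^2/4)) (a := -4) (b := 4) gauss_int.integrableOn gauss_int.integrableOn
  have h3 := intervalIntegral.integral_Iic_add_Ioi (μ := volume)
    (f := fun s : ℝ => Real.exp (-s^2/4)) (b := 4) gauss_int.integrableOn gauss_int.integrableOn
  have h4 := int_gauss
  have h5 := mills
  linarith

/-- numerical bounds for `e^{-4}/√(4π)` -/
theorem phi_bounds : 51667/10000000 ≤ Real.exp (-4) / Real.sqrt (4 * Real.pi) ∧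
    Real.exp (-4) / Real.sqrt (4 * Real.pi) ≤ 51668/10000000 := by
  have hs1 : 3.5449 < Real.sqrt (4 * Real.pi) := by
    apply Real.lt_sqrt_of_sq_lt
    have := Real.pi_gt_d6
    norm_num at this ⊢; linarith
  have hs2 : Real.sqrt (4 * Real.pi) < 3.54491 := by
    rw [Real.sqrt_lt' (by norm_num)]
    have := Real.pi_lt_d6
    norm_num at this ⊢; linarith
  have he : Real.exp 4 = (Real.exp 1)^4 := by
    rw [← Real.exp_nat_mul]; norm_num
  have h1 := Real.exp_one_gt_d9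
  have h2 := Real.exp_one_lt_d9
  have hlo : (2.7182818283 : ℝ)^4 < Real.exp 4 := by
    rw [he]; gcongr
  have hhi : Real.exp 4 < (2.7182818286 : ℝ)^4 := by
    rw [he]; gcongr
  have hspos : 0 < Real.sqrt (4 * Real.pi) := by linarith
  have hep := Real.exp_pos 4
  rw [Real.exp_neg]
  constructor
  · rw [le_div_iff₀ hspos, inv_eq_one_div, le_div_iff₀ hep]
    have : Real.sqrt (4 * Real.pi) * Real.exp 4 ≤ 3.54491 * (2.7182818286 : ℝ)^4 := by
      gcongr
    norm_num at this ⊢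
    nlinarith
  · rw [div_le_iff₀ hspos, inv_eq_one_div, div_le_iff₀ hep]
    have : 3.5449 * (2.7182818283 : ℝ)^4 ≤ Real.sqrt (4 * Real.pi) * Real.exp 4 := by
      gcongr
    norm_num at this ⊢
    nlinarith

private lemma KK_nonneg (c3 c4 c5 c6 c7 : ℝ) : 0 ≤ KK c3 c4 c5 c6 c7 := by
  have key : KK c3 c4 c5 c6 c7 = 1 + (167/8000*c3^2 + 11/8000*c3*c5 + 211/1280000*c5^2)
    + (189/64000*c4^2 + 33/256000*c4*c6 + 699/40960000*c6^2)
    + (211/1280000*c5^2 + 33/3200000*c5*c7 + 153/179200000*c7^2) := by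
    unfold KK; ring
  have h1 : 0 ≤ 167/8000*c3^2 + 11/8000*c3*c5 + 211/1280000*c5^2 := by
    nlinarith [sq_nonneg (c3 + 1/30*c5), sq_nonneg c3, sq_nonneg c5]
  have h2 : 0 ≤ 189/64000*c4^2 + 33/256000*c4*c6 + 699/40960000*c6^2 := by
    nlinarith [sq_nonneg (c4 + 1/45*c6), sq_nonneg c4, sq_nonneg c6]
  have h3 : 0 ≤ 211/1280000*c5^2 + 33/3200000*c5*c7 + 153/179200000*c7^2 := by
    nlinarith [sq_nonneg (c5 + 1/32*c7), sq_nonneg c5, sq_nonneg c7]
  rw [key]; linarith

/-- **Main inequality of the certificate.** -/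
theorem main_ineq {c3 c4 c5 c6 c7 : ℝ} (h3 : |c3| ≤ 3/2) (h4l : -2 ≤ c4) (h4u : c4 ≤ 1)
    (h5 : |c5| ≤ 69/8) (h6l : -14 ≤ c6) (h6u : c6 ≤ 16) (h7 : |c7| ≤ 53) :
    (∫ s in (-4 : ℝ)..4, Real.exp (ell c3 c4 c5 c6 c7 s) * Real.exp (-s^2/4)) / Real.sqrt (4 * Real.pi)
      ≤ 1 + EU c3 c4 c5 c6 c7 - BE c3 c4 c5 c6 c7 - (261/5000)^2 := by
  have hc : Continuous (fun s => ell c3 c4 c5 c6 c7 s) := by unfold ell; fun_prop
  have hle : (∫ s in (-4 : ℝ)..4, Real.exp (ell c3 c4 c5 c6 c7 s) * Real.exp (-s^2/4))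
      ≤ ∫ s in (-4 : ℝ)..4, (1 + ell c3 c4 c5 c6 c7 s
        + (27/50 + 33/1000*s^2) * (ell c3 c4 c5 c6 c7 s)^2) * Real.exp (-s^2/4) := by
    apply intervalIntegral.integral_mono_on (by norm_num)
    · apply Continuous.intervalIntegrable; fun_prop
    · apply Continuous.intervalIntegrable; fun_prop
    · intro s hs
      apply mul_le_mul_of_nonneg_right _ (Real.exp_pos _).le
      exact exp_ell_le h3 h4l h4u h5 h6l h6u h7 (abs_le.2 ⟨hs.1, hs.2⟩)
  rw [int_quad] at hle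
  have hJ := mul_le_mul_of_nonneg_left J_le (KK_nonneg c3 c4 c5 c6 c7)
  have hspos : 0 < Real.sqrt (4 * Real.pi) := Real.sqrt_pos.2 (by positivity)
  obtain ⟨hp1, hp2⟩ := phi_bounds
  have hf := final_ineq (c3 := c3) (c4 := c4) (c5 := c5) h6l h7 hp1 hp2
  refine le_trans ?_ hf
  rw [div_le_iff₀ hspos]
  have e : (KK c3 c4 c5 c6 c7 * (1 - 104/115*(Real.exp (-4) / Real.sqrt (4 * Real.pi)))
      + WW c3 c4 c5 c6 c7 * (Real.exp (-4) / Real.sqrt (4 * Real.pi))) * Real.sqrt (4 * Real.pi)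
      = KK c3 c4 c5 c6 c7 * (Real.sqrt (4 * Real.pi) - 2 * (208/460 * Real.exp (-4)))
        + WW c3 c4 c5 c6 c7 * Real.exp (-4) := by
    field_simp
    ring
  rw [e]
  linarith

end PoolAgent.H82R2
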