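import Mathlib
import Pool.Agent.Lib.MP_ec2ab1_pr_h82.Cert5

/-! Moment box for laws on `[-2,2]` with mean 0 and variance 1. -/

open MeasureTheory

namespace PoolAgent.H82R2

theorem integrable_of_cont {P : Measure ℝ} [IsProbabilityMeasure P] (hP : ∀ᵐ x ∂P, |x| ≤ 2)
    {f : ℝ → ℝ} (hf : Continuous f) : Integrable f P := by
  obtain ⟨C, hC⟩ := (isCompact_Icc (a := (-2:ℝ)) (b := 2)).exists_bound_of_continuousOn hf.continuousOn
  refine Integrable.mono' (integrable_const C) hf.aestronglyMeasurable ?_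
  filter_upwards [hP] with x hx
  exact hC x (abs_le.1 hx)

theorem int_le_of_quad {P : Measure ℝ} [IsProbabilityMeasure P] (hP : ∀ᵐ x ∂P, |x| ≤ 2)
    (hm : ∫ x, x ∂P = 0) (hv : ∫ x, x^2 ∂P = 1) {f : ℝ → ℝ} (hf : Continuous f) (α β γ : ℝ)
    (h : ∀ x, |x| ≤ 2 → f x ≤ α + β*x + γ*x^2) : ∫ x, f x ∂P ≤ α + γ := by
  have h1 : ∫ x, f x ∂P ≤ ∫ x, (α + β*x + γ*x^2) ∂P := by
    apply integral_mono_ae (integrable_of_cont hP hf) (integrable_of_cont hP (by fun_prop))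
    filter_upwards [hP] with x hx
    exact h x hx
  have i1 : Integrable (fun x : ℝ => β*x) P := integrable_of_cont hP (by fun_prop)
  have i2 : Integrable (fun x : ℝ => γ*x^2) P := integrable_of_cont hP (by fun_prop)
  have i0 : Integrable (fun _ : ℝ => α) P := integrable_const _
  have h2 : ∫ x, (α + β*x + γ*x^2) ∂P = α + γ := by
    have i01 : Integrable (fun x : ℝ => α + β*x) P := integrable_of_cont hP (by fun_prop)
    rw [integral_add i01 i2, integral_add i0 i1, integral_const_mul, integral_const_mul, hm, hv]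
    simp
  linarith

private lemma he7_le {x : ℝ} (h1 : -2 ≤ x) (h2 : x ≤ 2) :
    x^7 - 21*x^5 + 105*x^3 - 105*x ≤ 187/5 + 1/2*x + 78/5*x^2 := by
  rcases le_total x (-1) with hb | hb
  · obtain ⟨p, hp⟩ : ∃ p : ℝ, p = x - (-2) := ⟨_, rfl⟩
    obtain ⟨r, hr⟩ : ∃ r : ℝ, r = (-1) - x := ⟨_, rfl⟩
    have hp0 : 0 ≤ p := by linarith
    have hr0 : 0 ≤ r := by linarith
    have key : 187/5 + 1/2*x + 78/5*x^2 - (x^7 - 21*x^5 + 105*x^3 - 105*x) = (924/5)*p^0*r^7 + (13087/10)*p^1*r^6 + 3609*p^2*r^5 + (10115/2)*p^3*r^4 + 3916*p^4*r^3 + (16803/10)*p^5*r^2 + (1851/5)*p^6*r^1 + (65/2)*p^7*r^0 := by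
      rw [hp, hr]; ring
    have : 0 ≤ 187/5 + 1/2*x + 78/5*x^2 - (x^7 - 21*x^5 + 105*x^3 - 105*x) := by rw [key]; positivity
    linarith
  ·
    rcases le_total x (-1/2) with hb | hb
    · obtain ⟨p, hp⟩ : ∃ p : ℝ, p = x - (-1) := ⟨_, rfl⟩
      obtain ⟨r, hr⟩ : ∃ r : ℝ, r = (-1/2) - x := ⟨_, rfl⟩
      have hp0 : 0 ≤ p := by linarith
      have hr0 : 0 ≤ r := by linarith
      have key : 187/5 + 1/2*x + 78/5*x^2 - (x^7 - 21*x^5 + 105*x^3 - 105*x) = 16640*p^0*r^9 + (566144/5)*p^1*r^8 + (1624576/5)*p^2*r^7 + 506240*p^3*r^6 + (2280768/5)*p^4*r^5 + 229824*p^5*r^4 + (268184/5)*p^6*r^3 + (8756/5)*p^7*r^2 + 224*p^8*r^1 + (2628/5)*p^9*r^0 := by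
        rw [hp, hr]; ring
      have : 0 ≤ 187/5 + 1/2*x + 78/5*x^2 - (x^7 - 21*x^5 + 105*x^3 - 105*x) := by rw [key]; positivity
      linarith
    ·
      rcases le_total x 0 with hb | hb
      · obtain ⟨p, hp⟩ : ∃ p : ℝ, p = x - (-1/2) := ⟨_, rfl⟩
        obtain ⟨r, hr⟩ : ∃ r : ℝ, r = 0 - x := ⟨_, rfl⟩
        have hp0 : 0 ≤ p := by linarith
        have hr0 : 0 ≤ r := by linarith
        have key : 187/5 + 1/2*x + 78/5*x^2 - (x^7 - 21*x^5 + 105*x^3 - 105*x) = (657/5)*p^0*r^7 + (10232/5)*p^1*r^6 + (71196/5)*p^2*r^5 + 44224*p^3*r^4 + 70448*p^4*r^3 + (302592/5)*p^5*r^2 + (133792/5)*p^6*r^1 + (23936/5)*p^7*r^0 := by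
          rw [hp, hr]; ring
        have : 0 ≤ 187/5 + 1/2*x + 78/5*x^2 - (x^7 - 21*x^5 + 105*x^3 - 105*x) := by rw [key]; positivity
        linarith
      ·
        rcases le_total x 1 with hb | hb
        · obtain ⟨p, hp⟩ : ∃ p : ℝ, p = x - 0 := ⟨_, rfl⟩
          obtain ⟨r, hr⟩ : ∃ r : ℝ, r = 1 - x := ⟨_, rfl⟩
          have hp0 : 0 ≤ p := by linarith
          have hr0 : 0 ≤ r := by linarith
          have key : 187/5 + 1/2*x + 78/5*x^2 - (x^7 - 21*x^5 + 105*x^3 - 105*x) = (187/5)*p^0*r^7 + (3673/10)*p^1*r^6 + 1434*p^2*r^5 + (5729/2)*p^3*r^4 + 3155*p^4*r^3 + (19149/10)*p^5*r^2 + (2974/5)*p^6*r^1 + (147/2)*p^7*r^0 := by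
            rw [hp, hr]; ring
          have : 0 ≤ 187/5 + 1/2*x + 78/5*x^2 - (x^7 - 21*x^5 + 105*x^3 - 105*x) := by rw [key]; positivity
          linarith
        ·
          rcases le_total x (3/2) with hb | hb
          · obtain ⟨p, hp⟩ : ∃ p : ℝ, p = x - 1 := ⟨_, rfl⟩
            obtain ⟨r, hr⟩ : ∃ r : ℝ, r = (3/2) - x := ⟨_, rfl⟩
            have hp0 : 0 ≤ p := by linarith
            have hr0 : 0 ≤ r := by linarith
            have key : 187/5 + 1/2*x + 78/5*x^2 - (x^7 - 21*x^5 + 105*x^3 - 105*x) = 9408*p^0*r^7 + (303584/5)*p^1*r^6 + 163200*p^2*r^5 + 235648*p^3*r^4 + 196208*p^4*r^3 + 93552*p^5*r^2 + (117514/5)*p^6*r^1 + 2401*p^7*r^0 := by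
              rw [hp, hr]; ring
            have : 0 ≤ 187/5 + 1/2*x + 78/5*x^2 - (x^7 - 21*x^5 + 105*x^3 - 105*x) := by rw [key]; positivity
            linarith
          ·
            rcases le_total x (7/4) with hb | hb
            · obtain ⟨p, hp⟩ : ∃ p : ℝ, p = x - (3/2) := ⟨_, rfl⟩
              obtain ⟨r, hr⟩ : ∃ r : ℝ, r = (7/4) - x := ⟨_, rfl⟩
              have hp0 : 0 ≤ p := by linarith
              have hr0 : 0 ≤ r := by linarith
              have key : 187/5 + 1/2*x + 78/5*x^2 - (x^7 - 21*x^5 + 105*x^3 - 105*x) = 307328*p^0*r^7 + (8613824/5)*p^1*r^6 + (19886496/5)*p^2*r^5 + 4850224*p^3*r^4 + 3329240*p^4*r^3 + 1271364*p^5*r^2 + (1273294/5)*p^6*r^1 + (120861/5)*p^7*r^0 := by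
                rw [hp, hr]; ring
              have : 0 ≤ 187/5 + 1/2*x + 78/5*x^2 - (x^7 - 21*x^5 + 105*x^3 - 105*x) := by rw [key]; positivity
              linarith
            ·
              obtain ⟨p, hp⟩ : ∃ p : ℝ, p = x - (7/4) := ⟨_, rfl⟩
              obtain ⟨r, hr⟩ : ∃ r : ℝ, r = 2 - x := ⟨_, rfl⟩
              have hp0 : 0 ≤ p := by linarith
              have hr0 : 0 ≤ r := by linarith
              have key : 187/5 + 1/2*x + 78/5*x^2 - (x^7 - 21*x^5 + 105*x^3 - 105*x) = (120861/5)*p^0*r^7 + 83752*p^1*r^6 + (1229616/5)*p^2*r^5 + 873088*p^3*r^4 + 1861888*p^4*r^3 + (10285056/5)*p^5*r^2 + 1124352*p^6*r^1 + (1212416/5)*p^7*r^0 := by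
                rw [hp, hr]; ring
              have : 0 ≤ 187/5 + 1/2*x + 78/5*x^2 - (x^7 - 21*x^5 + 105*x^3 - 105*x) := by rw [key]; positivity
              linarith

variable {P : Measure ℝ} [IsProbabilityMeasure P]

theorem box3 (hP : ∀ᵐ x ∂P, |x| ≤ 2) (hm : ∫ x, x ∂P = 0) (hv : ∫ x, x^2 ∂P = 1) :
    |∫ x, (x^3 - 3*x) ∂P| ≤ 3/2 := by
  rw [abs_le]
  constructor
  · have := int_le_of_quad hP hm hv (f := fun x => -(x^3 - 3*x)) (by fun_prop) (1/2) (5/4) 1 (by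
      intro x hx; obtain ⟨h1, h2⟩ := abs_le.1 hx
      nlinarith [mul_nonneg (sq_nonneg (x - 1/2)) (by linarith : (0:ℝ) ≤ x + 2)])
    rw [integral_neg] at this; linarith
  · have := int_le_of_quad hP hm hv (f := fun x => x^3 - 3*x) (by fun_prop) (1/2) (-5/4) 1 (by
      intro x hx; obtain ⟨h1, h2⟩ := abs_le.1 hx
      nlinarith [mul_nonneg (sq_nonneg (x + 1/2)) (by linarith : (0:ℝ) ≤ 2 - x)])
    linarith

theorem box4 (hP : ∀ᵐ x ∂P, |x| ≤ 2) (hm : ∫ x, x ∂P = 0) (hv : ∫ x, x^2 ∂P = 1) :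
    -2 ≤ ∫ x, (x^4 - 6*x^2 + 3) ∂P ∧ ∫ x, (x^4 - 6*x^2 + 3) ∂P ≤ 1 := by
  constructor
  · have := int_le_of_quad hP hm hv (f := fun x => -(x^4 - 6*x^2 + 3)) (by fun_prop) (-2) 0 4 (by
      intro x hx
      nlinarith [sq_nonneg (x^2 - 1)])
    rw [integral_neg] at this; linarith
  · have := int_le_of_quad hP hm hv (f := fun x => x^4 - 6*x^2 + 3) (by fun_prop) 3 0 (-2) (by
      intro x hx; obtain ⟨h1, h2⟩ := abs_le.1 hx
      have h4 : 0 ≤ 4 - x^2 := by nlinarith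
      nlinarith [mul_nonneg (sq_nonneg x) h4])
    linarith

theorem box5 (hP : ∀ᵐ x ∂P, |x| ≤ 2) (hm : ∫ x, x ∂P = 0) (hv : ∫ x, x^2 ∂P = 1) :
    |∫ x, (x^5 - 10*x^3 + 15*x) ∂P| ≤ 69/8 := by
  have aux : ∀ x : ℝ, -2 ≤ x → x ≤ 2 →
      -(x^5 - 10*x^3 + 15*x) ≤ 29/8 + (-45/16)*x + 5*x^2 := by
    intro x h1 h2
    have h3 : 0 ≤ 29/4 - x - x^2 := by nlinarith
    have h4 : 0 ≤ (x + 1/2)^2 * ((2 - x) * (29/4 - x - x^2)) :=
      mul_nonneg (sq_nonneg _) (mul_nonneg (by linarith) h3)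
    nlinarith
  rw [abs_le]
  constructor
  · have := int_le_of_quad hP hm hv (f := fun x => -(x^5 - 10*x^3 + 15*x)) (by fun_prop)
      (29/8) (-45/16) 5 (by
      intro x hx; obtain ⟨h1, h2⟩ := abs_le.1 hx
      exact aux x h1 h2)
    rw [integral_neg] at this; linarith
  · have := int_le_of_quad hP hm hv (f := fun x => x^5 - 10*x^3 + 15*x) (by fun_prop)
      (29/8) (45/16) 5 (by
      intro x hx; obtain ⟨h1, h2⟩ := abs_le.1 hx
      have := aux (-x) (by linarith) (by linarith)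
      nlinarith)
    linarith

theorem box6 (hP : ∀ᵐ x ∂P, |x| ≤ 2) (hm : ∫ x, x ∂P = 0) (hv : ∫ x, x^2 ∂P = 1) :
    -14 ≤ ∫ x, (x^6 - 15*x^4 + 45*x^2 - 15) ∂P ∧ ∫ x, (x^6 - 15*x^4 + 45*x^2 - 15) ∂P ≤ 16 := by
  constructor
  · have := int_le_of_quad hP hm hv (f := fun x => -(x^6 - 15*x^4 + 45*x^2 - 15)) (by fun_prop)
      15 0 (-1) (by
      intro x hx; obtain ⟨h1, h2⟩ := abs_le.1 hx
      have h4 : 0 ≤ 4 - x^2 := by nlinarith
      have h11 : 0 ≤ 11 - x^2 := by linarith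
      nlinarith [mul_nonneg (sq_nonneg x) (mul_nonneg h4 h11)])
    rw [integral_neg] at this; linarith
  · have := int_le_of_quad hP hm hv (f := fun x => x^6 - 15*x^4 + 45*x^2 - 15) (by fun_prop)
      (-2) 0 18 (by
      intro x hx; obtain ⟨h1, h2⟩ := abs_le.1 hx
      have h13 : 0 ≤ 13 - x^2 := by nlinarith
      nlinarith [mul_nonneg (sq_nonneg (x^2 - 1)) h13])
    linarith

theorem box7 (hP : ∀ᵐ x ∂P, |x| ≤ 2) (hm : ∫ x, x ∂P = 0) (hv : ∫ x, x^2 ∂P = 1) :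
    |∫ x, (x^7 - 21*x^5 + 105*x^3 - 105*x) ∂P| ≤ 53 := by
  rw [abs_le]
  constructor
  · have := int_le_of_quad hP hm hv (f := fun x => -(x^7 - 21*x^5 + 105*x^3 - 105*x)) (by fun_prop)
      (187/5) (-1/2) (78/5) (by
      intro x hx; obtain ⟨h1, h2⟩ := abs_le.1 hx
      have := he7_le (x := -x) (by linarith) (by linarith)
      have e : (-x)^7 - 21*(-x)^5 + 105*(-x)^3 - 105*(-x) = -(x^7 - 21*x^5 + 105*x^3 - 105*x) := by ring
      have e2 : 187/5 + 1/2*(-x) + 78/5*(-x)^2 = 187/5 + -1/2*x + 78/5*x^2 := by ring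
      rw [e, e2] at this
      exact this)
    rw [integral_neg] at this; linarith
  · have := int_le_of_quad hP hm hv (f := fun x => x^7 - 21*x^5 + 105*x^3 - 105*x) (by fun_prop)
      (187/5) (1/2) (78/5) (by
      intro x hx; obtain ⟨h1, h2⟩ := abs_le.1 hx
      exact he7_le h1 h2)
    linarith

/-- diagonal of the tail kernel -/
noncomputable def k8 (x : ℝ) : ℝ :=
  2/Real.sqrt 3 * Real.exp (x^2/3)
      - (1 + x^2/2 + (x^2-1)^2/8 + (x^3-3*x)^2/48 + (x^4-6*x^2+3)^2/384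
        + (x^5-10*x^3+15*x)^2/3840 + (x^6-15*x^4+45*x^2-15)^2/46080
        + (x^7-21*x^5+105*x^3-105*x)^2/645120)

theorem int_sqrt_k8 (hP : ∀ᵐ x ∂P, |x| ≤ 2) (hm : ∫ x, x ∂P = 0) (hv : ∫ x, x^2 ∂P = 1) :
    ∫ x, Real.sqrt (k8 x) ∂P ≤ 261/5000 := by
  have hc : Continuous (fun x => Real.sqrt (k8 x)) := by unfold k8; fun_prop
  have := int_le_of_quad hP hm hv hc (19/500) 0 (71/5000) (by
    intro x hx
    have h := k8_le hx
    have h0 : 0 ≤ 19/500 + 71/5000*x^2 := by positivity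
    have := Real.sqrt_le_sqrt h
    rw [Real.sqrt_sq h0] at this
    unfold k8
    linarith)
  norm_num at this ⊢
  linarith

end PoolAgent.H82R2
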