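import Mathlib
import Pool.Agent.Lib.MP_ec2ab1_pr_h82.Cert4
import Pool.Agent.Lib.MP_ec2ab1_pr_h82.Cert6

/-! Certificate for laws on `[-2,2]` with mean 0 and variance 1, in one statement. -/

open MeasureTheory

namespace PoolAgent.H82R2

/-- `∫_{|s| ≤ 4} e^ell dG + (low modes) + (tail) ≤ 1 + E_U ell`. -/
theorem cert {P : Measure ℝ} [IsProbabilityMeasure P] (hP : ∀ᵐ x ∂P, |x| ≤ 2)
    (hm : ∫ x, x ∂P = 0) (hv : ∫ x, x^2 ∂P = 1) {c3 c4 c5 c6 c7 : ℝ}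
    (h3 : c3 = ∫ x, (x^3 - 3*x) ∂P) (h4 : c4 = ∫ x, (x^4 - 6*x^2 + 3) ∂P)
    (h5 : c5 = ∫ x, (x^5 - 10*x^3 + 15*x) ∂P)
    (h6 : c6 = ∫ x, (x^6 - 15*x^4 + 45*x^2 - 15) ∂P)
    (h7 : c7 = ∫ x, (x^7 - 21*x^5 + 105*x^3 - 105*x) ∂P) :
    (∫ s in (-4 : ℝ)..4, Real.exp (ell c3 c4 c5 c6 c7 s) * Real.exp (-s^2/4)) / Real.sqrt (4 * Real.pi)
      + BE c3 c4 c5 c6 c7 + (∫ x, Real.sqrt (k8 x) ∂P)^2
      ≤ 1 + EU c3 c4 c5 c6 c7 := by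
  have b3 := box3 hP hm hv
  have b4 := box4 hP hm hv
  have b5 := box5 hP hm hv
  have b6 := box6 hP hm hv
  have b7 := box7 hP hm hv
  rw [← h3] at b3; rw [← h4] at b4; rw [← h5] at b5; rw [← h6] at b6; rw [← h7] at b7
  have hmain := main_ineq b3 b4.1 b4.2 b5 b6.1 b6.2 b7
  have hk := int_sqrt_k8 hP hm hv
  have hk0 : 0 ≤ ∫ x, Real.sqrt (k8 x) ∂P := integral_nonneg fun x => Real.sqrt_nonneg _
  have : (∫ x, Real.sqrt (k8 x) ∂P)^2 ≤ (261/5000)^2 := by gcongr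
  linarith

end PoolAgent.H82R2
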